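import Pool.Agent.H83.BI.Basic

/-! Angle functions with parameters. -/

set_option autoImplicit false
set_option linter.unusedSectionVars false

open Set Filter Topology Metric Function
open scoped ContDiff

namespace Pool.Agent.H83.BI

/-- smoothness of parameter integrals -/
theorem contDiff_param_aux {E : Type} [NormedAddCommGroup E] [NormedSpace ℝ E]
    [FiniteDimensional ℝ E] (a b : ℝ) (m : ℕ) : ∀ (G : Type) [NormedAddCommGroup G]
    [NormedSpace ℝ G] [CompleteSpace G] (F : E → ℝ → G),
    ContDiff ℝ m (fun p : E × ℝ => F p.1 p.2) → ContDiff ℝ m (fun x => ∫ t in a..b, F x t) := by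
  have hproper : ProperSpace E := FiniteDimensional.proper_real E
  induction m with
  | zero =>
    intro G _ _ _ F hF
    have h0 : Continuous (Function.uncurry F) := hF.continuous
    have h1 := intervalIntegral.continuous_parametric_intervalIntegral_of_continuous'
      (μ := MeasureTheory.volume) h0 a b
    exact contDiff_zero.mpr h1
  | succ m ih =>
    intro G _ _ _ F hF
    have hF' : ContDiff ℝ ((m : WithTop ℕ∞) + 1) (fun p : E × ℝ => F p.1 p.2) := by
      exact_mod_cast hF
    have hcF : Continuous (fun p : E × ℝ => F p.1 p.2) := hF'.continuous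
    set D : E → ℝ → (E →L[ℝ] G) := fun x t =>
      (fderiv ℝ (fun p : E × ℝ => F p.1 p.2) (x, t)).comp (ContinuousLinearMap.inl ℝ E ℝ) with hD
    have hDc : ContDiff ℝ m (fun p : E × ℝ => D p.1 p.2) := by
      have h1 : ContDiff ℝ m (fderiv ℝ (fun p : E × ℝ => F p.1 p.2)) :=
        hF'.fderiv_right le_rfl
      exact h1.clm_comp contDiff_const
    have hDcont : Continuous (fun p : E × ℝ => D p.1 p.2) := hDc.continuous
    have hder : ∀ x t, HasFDerivAt (fun x => F x t) (D x t) x := by
      intro x t
      have h1 : HasFDerivAt (fun p : E × ℝ => F p.1 p.2)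
          (fderiv ℝ (fun p : E × ℝ => F p.1 p.2) (x, t)) (x, t) :=
        (hF'.differentiable (by simp) (x, t)).hasFDerivAt
      have h2 : HasFDerivAt (𝕜 := ℝ) (fun e : E => (e, t)) (ContinuousLinearMap.inl ℝ E ℝ) x :=
        hasFDerivAt_prodMk_left x t
      exact HasFDerivAt.comp (g := fun p : E × ℝ => F p.1 p.2) (f := fun e : E => (e, t)) x h1 h2
    have key : ContDiff ℝ ((m : WithTop ℕ∞) + 1) (fun x => ∫ t in a..b, F x t) := by
      rw [contDiff_succ_iff_hasFDerivAt]
      refine ⟨fun x => ∫ t in a..b, D x t, ih (E →L[ℝ] G) D hDc, fun x => ?_⟩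
      obtain ⟨C, hC⟩ := ((isCompact_closedBall x 1).prod (isCompact_uIcc (a := a) (b := b))
        ).exists_bound_of_continuousOn hDcont.continuousOn
      refine intervalIntegral.hasFDerivAt_integral_of_dominated_of_fderiv_le
        (s := Metric.closedBall x 1) (bound := fun _ => C)
        (Metric.closedBall_mem_nhds x one_pos) ?_ ?_ ?_ ?_ ?_ ?_
      · refine Eventually.of_forall fun y => ?_
        exact (hcF.comp (continuous_const.prodMk continuous_id)).aestronglyMeasurable
      · exact (hcF.comp (continuous_const.prodMk continuous_id)).intervalIntegrable _ _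
      · exact (hDcont.comp (continuous_const.prodMk continuous_id)).aestronglyMeasurable
      · refine Eventually.of_forall fun t ht y hy => ?_
        exact hC (y, t) ⟨hy, uIoc_subset_uIcc ht⟩
      · exact intervalIntegrable_const
      · exact Eventually.of_forall fun t _ y _ => hder y t
    exact_mod_cast key

theorem contDiff_param {E : Type} [NormedAddCommGroup E] [NormedSpace ℝ E]
    [FiniteDimensional ℝ E] (a b : ℝ) {G : Type} [NormedAddCommGroup G]
    [NormedSpace ℝ G] [CompleteSpace G] {F : E → ℝ → G}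
    (h : ContDiff ℝ ∞ (fun p : E × ℝ => F p.1 p.2)) : ContDiff ℝ ∞ (fun x => ∫ t in a..b, F x t) := by
  rw [contDiff_infty]
  intro m
  exact contDiff_param_aux a b m G F (h.of_le (by exact_mod_cast le_top))

section

variable {B : Type} [NormedAddCommGroup B] [NormedSpace ℝ B] [FiniteDimensional ℝ B]

theorem angle {u : B × (ℝ × ℝ) → ℂ} (hu : ContDiff ℝ ∞ u) (h0 : ∀ z, u z ≠ 0) {R : ℝ} (hR : 0 < R)
    (h1 : ∀ z, R ≤ ‖z‖ → u z = 1) :
    ∃ ψ : B × (ℝ × ℝ) → ℝ, ContDiff ℝ ∞ ψ ∧ (∀ z, R ≤ ‖z‖ → ψ z = 0) ∧
      ∀ z, ∃ ρ : ℝ, 0 < ρ ∧ (u z).re = ρ * Real.cos (ψ z) ∧ (u z).im = ρ * Real.sin (ψ z) := by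
  set e₁ : B × (ℝ × ℝ) := (0, (1, 0)) with he₁
  set w : B × (ℝ × ℝ) → ℂ := fun z => fderiv ℝ u z e₁ * (u z)⁻¹ with hw
  have hws : ContDiff ℝ ∞ w :=
    ((hu.fderiv_right (m := ∞) (by simp)).clm_apply contDiff_const).mul (hu.inv h0)
  set L : B × (ℝ × ℝ) → ℂ := fun z =>
    ((z.2.1 + R : ℝ) : ℂ) * ∫ s in (0 : ℝ)..1, w (z.1, (-R + (z.2.1 + R) * s, z.2.2)) with hL
  have hLs : ContDiff ℝ ∞ L := by
    refine ContDiff.mul ?_ ?_
    · exact Complex.ofRealCLM.contDiff.comp
        ((contDiff_fst.comp contDiff_snd).add contDiff_const)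
    · refine contDiff_param 0 1 ?_
      refine hws.comp ?_
      refine (contDiff_fst.comp contDiff_fst).prodMk (ContDiff.prodMk ?_ ?_)
      · exact contDiff_const.add ((((contDiff_fst.comp (contDiff_snd.comp contDiff_fst))).add
          contDiff_const).mul contDiff_snd)
      · exact contDiff_snd.comp (contDiff_snd.comp contDiff_fst)
  have hLint : ∀ b x y, L (b, (x, y)) = ∫ s in (-R)..x, w (b, (s, y)) := by
    intro b x y
    have h2 := intervalIntegral.smul_integral_comp_add_mul (fun s => w (b, (s, y))) (x + R) (-R)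
      (a := 0) (b := 1)
    rw [mul_zero, add_zero, mul_one] at h2
    have h3 : -R + (x + R) = x := by ring
    rw [h3] at h2
    rw [← h2, hL]
    simp [Complex.real_smul]
  have hwc : ∀ b y, Continuous (fun s : ℝ => w (b, (s, y))) := fun b y =>
    hws.continuous.comp (by fun_prop)
  have hder : ∀ b x y, HasDerivAt (fun x : ℝ => L (b, (x, y))) (w (b, (x, y))) x := by
    intro b x y
    have h2 : (fun x : ℝ => L (b, (x, y))) = fun x => ∫ s in (-R)..x, w (b, (s, y)) := by
      funext x
      exact hLint b x y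
    rw [h2]
    exact intervalIntegral.integral_hasDerivAt_right ((hwc b y).intervalIntegrable _ _)
      ((hwc b y).stronglyMeasurableAtFilter _ _) (hwc b y).continuousAt
  have hude : ∀ b x y, HasDerivAt (fun x : ℝ => u (b, (x, y))) (fderiv ℝ u (b, (x, y)) e₁) x := by
    intro b x y
    have h2 : HasDerivAt (fun x : ℝ => ((b, (x, y)) : B × (ℝ × ℝ))) e₁ x :=
      (hasDerivAt_const x b).prodMk ((hasDerivAt_id' x).prodMk (hasDerivAt_const x y))
    exact ((hu.differentiable (by simp) (b, (x, y))).hasFDerivAt).comp_hasDerivAt x h2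
  have hexp : ∀ b x y, u (b, (x, y)) = Complex.exp (L (b, (x, y))) := by
    intro b x y
    have h2 : ∀ x, HasDerivAt (fun x : ℝ => u (b, (x, y)) * Complex.exp (-L (b, (x, y)))) 0 x := by
      intro x
      have hneg : HasDerivAt (fun x : ℝ => -L (b, (x, y))) (-w (b, (x, y))) x := (hder b x y).neg
      have h3 : HasDerivAt (fun x : ℝ => u (b, (x, y)) * Complex.exp (-L (b, (x, y))))
          (fderiv ℝ u (b, (x, y)) e₁ * Complex.exp (-L (b, (x, y))) +
          u (b, (x, y)) * (Complex.exp (-L (b, (x, y))) * -w (b, (x, y)))) x :=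
        (hude b x y).mul hneg.cexp
      have h4 : fderiv ℝ u (b, (x, y)) e₁ * Complex.exp (-L (b, (x, y))) +
          u (b, (x, y)) * (Complex.exp (-L (b, (x, y))) * -w (b, (x, y))) = 0 := by
        simp only [hw]
        have := h0 (b, (x, y))
        field_simp
        ring
      rw [h4] at h3
      exact h3
    have h3 := is_const_of_deriv_eq_zero (fun x => (h2 x).differentiableAt)
      (fun x => (h2 x).deriv) x (-R)
    have h4 : L (b, (-R, y)) = 0 := by
      rw [hLint, intervalIntegral.integral_same]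
    have h5 : u (b, (-R, y)) = 1 := by
      apply h1
      rw [Prod.norm_def, Prod.norm_def]
      refine le_max_of_le_right (le_max_of_le_left ?_)
      rw [Real.norm_eq_abs, abs_neg]
      exact le_abs_self R
    simp only [h4, h5, neg_zero, Complex.exp_zero, mul_one] at h3
    rw [Complex.exp_neg] at h3
    have h6 := Complex.exp_ne_zero (L (b, (x, y)))
    field_simp at h3
    exact h3
  set ψ : B × (ℝ × ℝ) → ℝ := fun z => (L z).im with hψ
  have hψs : ContDiff ℝ ∞ ψ := Complex.imCLM.contDiff.comp hLs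
  have hform : ∀ z, (u z).re = Real.exp (L z).re * Real.cos (ψ z) ∧
      (u z).im = Real.exp (L z).re * Real.sin (ψ z) := by
    rintro ⟨b, x, y⟩
    have h2 := hexp b x y
    rw [h2]
    exact ⟨Complex.exp_re _, Complex.exp_im _⟩
  -- where `w` vanishes
  have hw0 : ∀ z, R < ‖z‖ → w z = 0 := by
    intro z hz
    have h2 : u =ᶠ[𝓝 z] fun _ => 1 := by
      filter_upwards [(isOpen_lt continuous_const continuous_norm).mem_nhds hz] with v hv
      exact h1 v (le_of_lt hv)
    simp only [hw]
    rw [h2.fderiv_eq]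
    simp
  have hwn : ∀ z, R ≤ ‖z‖ → w z = 0 := by
    -- by continuity
    intro z hz
    have hz0 : z ≠ 0 := by
      rintro rfl
      rw [norm_zero] at hz
      linarith
    have hc : Tendsto (fun n : ℕ => w ((1 + 1 / ((n : ℝ) + 1)) • z)) atTop (𝓝 (w z)) := by
      have h2 : Tendsto (fun n : ℕ => (1 + 1 / ((n : ℝ) + 1)) • z) atTop (𝓝 ((1 + 0 : ℝ) • z)) :=
        (tendsto_const_nhds.add tendsto_one_div_add_atTop_nhds_zero_nat).smul_const z
      rw [add_zero, one_smul] at h2
      exact (hws.continuous.tendsto z).comp h2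
    refine tendsto_nhds_unique hc ?_
    refine tendsto_const_nhds.congr fun n => ?_
    symm
    apply hw0
    rw [norm_smul, Real.norm_eq_abs]
    have h3 : (0 : ℝ) < 1 / ((n : ℝ) + 1) := by positivity
    rw [abs_of_pos (by linarith)]
    have h4 : 0 < ‖z‖ := norm_pos_iff.2 hz0
    nlinarith
  have hnorm : ∀ (b : B) (x y : ℝ), (R ≤ ‖b‖ ∨ R ≤ |x| ∨ R ≤ |y|) →
      R ≤ ‖((b, (x, y)) : B × (ℝ × ℝ))‖ := by
    intro b x y h
    rw [Prod.norm_def, Prod.norm_def]
    rcases h with h | h | h
    · exact h.trans (le_max_left _ _)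
    · exact (h.trans (le_max_left _ _)).trans (le_max_right _ _)
    · exact (h.trans (le_max_right _ _)).trans (le_max_right _ _)
  have hleft : ∀ b x y, x ≤ -R → L (b, (x, y)) = 0 := by
    intro b x y hx
    rw [hLint, intervalIntegral.integral_symm, neg_eq_zero]
    refine intervalIntegral.integral_zero_ae (Eventually.of_forall fun s hs => ?_)
    rw [uIoc_of_le hx] at hs
    apply hwn
    apply hnorm
    right; left
    rw [abs_of_nonpos (by linarith [hs.2])]
    linarith [hs.2]
  have hside : ∀ b x y, (R ≤ ‖b‖ ∨ R ≤ |y|) → L (b, (x, y)) = 0 := by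
    intro b x y h
    rw [hLint]
    refine intervalIntegral.integral_zero_ae (Eventually.of_forall fun s hs => ?_)
    apply hwn
    apply hnorm
    tauto
  have hright : ∀ b x y, R ≤ x → ψ (b, (x, y)) = 0 := by
    intro b x y hx
    have hcos : ∀ (b : B) (y : ℝ), 0 < Real.cos (ψ (b, (x, y))) ∧ Real.sin (ψ (b, (x, y))) = 0 := by
      intro b y
      have h2 := hform (b, (x, y))
      have h3 : u (b, (x, y)) = 1 := by
        apply h1
        apply hnorm
        right; left
        exact hx.trans (le_abs_self x)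
      rw [h3, Complex.one_re, Complex.one_im] at h2
      have h4 := Real.exp_pos (L (b, (x, y))).re
      constructor
      · by_contra h5
        have := mul_nonneg h4.le (neg_nonneg.2 (not_lt.1 h5))
        linarith [h2.1]
      · rcases mul_eq_zero.1 h2.2.symm with h5 | h5
        · exact absurd h5 h4.ne'
        · exact h5
    have hcont : Continuous (fun q : B × ℝ => ψ (q.1, (x, q.2))) :=
      hψs.continuous.comp (by fun_prop)
    have hz0 : ψ ((0 : B), (x, R)) = 0 := by
      have := hside (0 : B) x R (Or.inr (le_abs_self R))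
      simp only [hψ, this, Complex.zero_im]
    have hlt : |ψ (b, (x, y))| < Real.pi := by
      by_contra h2
      push Not at h2
      rcases le_abs'.1 h2 with h3 | h3
      · obtain ⟨q, hq⟩ := mem_range_of_exists_le_of_exists_ge hcont (c := -Real.pi)
          ⟨(b, y), h3⟩ ⟨((0 : B), R), by simp only [hz0]; linarith [Real.pi_pos]⟩
        have := (hcos q.1 q.2).1
        simp only at hq
        rw [hq, Real.cos_neg, Real.cos_pi] at this
        linarith
      · obtain ⟨q, hq⟩ := mem_range_of_exists_le_of_exists_ge hcont (c := Real.pi)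
          ⟨((0 : B), R), by simp only [hz0]; exact Real.pi_pos.le⟩ ⟨(b, y), h3⟩
        have := (hcos q.1 q.2).1
        simp only at hq
        rw [hq, Real.cos_pi] at this
        linarith
    rw [abs_lt] at hlt
    exact (Real.sin_eq_zero_iff_of_lt_of_lt hlt.1 hlt.2).1 (hcos b y).2
  refine ⟨ψ, hψs, ?_, fun z => ⟨Real.exp (L z).re, Real.exp_pos _, hform z⟩⟩
  rintro ⟨b, x, y⟩ hz
  rw [Prod.norm_def, Prod.norm_def] at hz
  simp only [Real.norm_eq_abs] at hz
  rcases le_max_iff.1 hz with h | h
  · simp only [hψ, hside b x y (Or.inl h), Complex.zero_im]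
  · rcases le_max_iff.1 h with h | h
    · rcases le_abs'.1 h with h | h
      · simp only [hψ, hleft b x y h, Complex.zero_im]
      · exact hright b x y h
    · simp only [hψ, hside b x y (Or.inr h), Complex.zero_im]

end

end Pool.Agent.H83.BI
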