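import Mathlib

/-! Compactly supported diffeomorphisms of a finite-dimensional space, isotopies. -/

set_option autoImplicit false
set_option linter.unusedSectionVars false

open Set Filter Topology Metric Function
open scoped ContDiff

namespace Pool.Agent.H83.BI

section

variable {E : Type} [NormedAddCommGroup E] [NormedSpace ℝ E] [FiniteDimensional ℝ E]

/-- diffeomorphism -/
def IsDiffeo (f : E → E) : Prop :=
  ContDiff ℝ ∞ f ∧ ∃ g : E → E, ContDiff ℝ ∞ g ∧ LeftInverse g f ∧ RightInverse g f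

/-- the equivalence given by an injective endomorphism -/
noncomputable def eqv (A : E →L[ℝ] E) (h : Injective A) : E ≃L[ℝ] E :=
  (LinearEquiv.ofInjectiveEndo (A : E →ₗ[ℝ] E) h).toContinuousLinearEquiv

theorem eqv_coe (A : E →L[ℝ] E) (h : Injective A) : ((eqv A h : E ≃L[ℝ] E) : E →L[ℝ] E) = A := by
  ext x
  rfl

theorem exists_chart {f : E → E} (hf : ContDiff ℝ ∞ f) (x : E) (h : Injective (fderiv ℝ f x)) :
    ∃ e : OpenPartialHomeomorph E E, x ∈ e.source ∧ (e : E → E) = f ∧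
      ContDiffAt ℝ ∞ e.symm (f x) := by
  have hA : HasFDerivAt f ((eqv _ h : E ≃L[ℝ] E) : E →L[ℝ] E) x := by
    rw [eqv_coe]
    exact (hf.differentiable (by simp) x).hasFDerivAt
  refine ⟨hf.contDiffAt.toOpenPartialHomeomorph f hA (by simp), ?_, ?_, ?_⟩
  · exact hf.contDiffAt.mem_toOpenPartialHomeomorph_source hA (by simp)
  · exact hf.contDiffAt.toOpenPartialHomeomorph_coe hA (by simp)
  · exact hf.contDiffAt.to_localInverse hA (by simp)

/-- the inverse of a bijective smooth local diffeomorphism is smooth -/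
theorem inv_smooth {f : E → E} (hf : ContDiff ℝ ∞ f) (h : ∀ x, Injective (fderiv ℝ f x))
    {g : E → E} (hl : LeftInverse g f) (hr : RightInverse g f) : ContDiff ℝ ∞ g := by
  rw [contDiff_iff_contDiffAt]
  intro y
  obtain ⟨e, he, hef, hes⟩ := exists_chart hf (g y) (h (g y))
  rw [hr y] at hes
  refine hes.congr_of_eventuallyEq ?_
  have hy : y ∈ e.target := by
    have := e.map_source he
    rwa [hef, hr y] at this
  filter_upwards [e.open_target.mem_nhds hy] with z hz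
  have h1 : f (e.symm z) = z := by
    have := e.right_inv hz
    rwa [hef] at this
  conv_lhs => rw [← h1]
  exact hl _

theorem open_map {f : E → E} (hf : ContDiff ℝ ∞ f) (h : ∀ x, Injective (fderiv ℝ f x)) :
    IsOpenMap f := by
  rw [isOpenMap_iff_nhds_le]
  intro x
  obtain ⟨e, he, hef, -⟩ := exists_chart hf x (h x)
  have := e.map_nhds_eq he
  rw [hef] at this
  exact this.ge

theorem proper_pre {f : E → E} (hf : Continuous f) {R : ℝ} (hR : ∀ x, R ≤ ‖x‖ → f x = x)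
    {K : Set E} (hK : IsCompact K) : IsCompact (f ⁻¹' K) := by
  refine ((isCompact_closedBall (0 : E) R).union hK).of_isClosed_subset (hK.isClosed.preimage hf) ?_
  intro x hx
  by_cases h : R ≤ ‖x‖
  · right
    have : f x ∈ K := hx
    rwa [hR x h] at this
  · left
    rw [mem_closedBall_zero_iff]
    exact (not_le.1 h).le

theorem bijective_of_local {f : E → E} (hf : ContDiff ℝ ∞ f) (h : ∀ x, Injective (fderiv ℝ f x))
    {R : ℝ} (hR : ∀ x, R ≤ ‖x‖ → f x = x) : Bijective f := by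
  have hfc := hf.continuous
  have hop := open_map hf h
  -- surjective
  have hrange : range f = univ := by
    have h1 : IsOpen (range f) := hop.isOpen_range
    have h2 : IsClosed (range f) := by
      rw [← isSeqClosed_iff_isClosed]
      intro u y hu huy
      have hK : IsCompact (insert y (range u)) := huy.isCompact_insert_range
      have h3 := (proper_pre hfc hR hK).image hfc
      have h4 : ∀ n, u n ∈ f '' (f ⁻¹' (insert y (range u))) := by
        intro n
        obtain ⟨x, hx⟩ := hu n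
        exact ⟨x, by rw [mem_preimage, hx]; exact mem_insert_of_mem _ (mem_range_self n), hx⟩
      obtain ⟨x, -, hx⟩ := h3.isClosed.mem_of_tendsto huy (Eventually.of_forall h4)
      exact ⟨x, hx⟩
    exact IsClopen.eq_univ ⟨h2, h1⟩ (range_nonempty f)
  refine ⟨?_, range_eq_univ.1 hrange⟩
  -- double points
  let D : Set E := {y | ∃ x x', x ≠ x' ∧ f x = y ∧ f x' = y}
  have hDo : IsOpen D := by
    rw [isOpen_iff_mem_nhds]
    rintro y ⟨x, x', hxx, hx, hx'⟩
    obtain ⟨U, W, hU, hW, hxU, hxW, hUW⟩ := t2_separation hxx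
    have h1 : f '' U ∩ f '' W ∈ 𝓝 y := by
      apply IsOpen.mem_nhds ((hop U hU).inter (hop W hW))
      exact ⟨⟨x, hxU, hx⟩, ⟨x', hxW, hx'⟩⟩
    filter_upwards [h1] with z hz
    obtain ⟨⟨a, ha, haz⟩, ⟨b, hb, hbz⟩⟩ := hz
    refine ⟨a, b, ?_, haz, hbz⟩
    rintro rfl
    exact (Set.disjoint_left.mp hUW) ha hb
  have hDc : IsClosed D := by
    rw [← isSeqClosed_iff_isClosed]
    intro u y hu huy
    choose a b hab ha hb using hu
    have hK : IsCompact (insert y (range u)) := huy.isCompact_insert_range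
    have hP := proper_pre hfc hR hK
    have haP : ∀ n, a n ∈ f ⁻¹' (insert y (range u)) := fun n => by
      rw [mem_preimage, ha n]; exact mem_insert_of_mem _ (mem_range_self n)
    have hbP : ∀ n, b n ∈ f ⁻¹' (insert y (range u)) := fun n => by
      rw [mem_preimage, hb n]; exact mem_insert_of_mem _ (mem_range_self n)
    obtain ⟨p, -, φ, hφ, hpa⟩ := (hP.prod hP).tendsto_subseq (x := fun n => (a n, b n))
      (fun n => ⟨haP n, hbP n⟩)
    have h1 : Tendsto (fun n => a (φ n)) atTop (𝓝 p.1) := (continuous_fst.tendsto p).comp hpa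
    have h2 : Tendsto (fun n => b (φ n)) atTop (𝓝 p.2) := (continuous_snd.tendsto p).comp hpa
    have hy : Tendsto (fun n => u (φ n)) atTop (𝓝 y) := huy.comp hφ.tendsto_atTop
    have e1 : f p.1 = y := by
      refine tendsto_nhds_unique ((hfc.tendsto _).comp h1) ?_
      refine hy.congr fun n => ?_
      exact (ha (φ n)).symm
    have e2 : f p.2 = y := by
      refine tendsto_nhds_unique ((hfc.tendsto _).comp h2) ?_
      refine hy.congr fun n => ?_
      exact (hb (φ n)).symm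
    by_cases hp : p.1 = p.2
    · exfalso
      obtain ⟨e, he, hef, -⟩ := exists_chart hf p.1 (h p.1)
      have h3 : ∀ᶠ n in atTop, a (φ n) ∈ e.source := h1 (e.open_source.mem_nhds he)
      have h4 : ∀ᶠ n in atTop, b (φ n) ∈ e.source := h2 (e.open_source.mem_nhds (hp ▸ he))
      obtain ⟨n, hn1, hn2⟩ := (h3.and h4).exists
      refine hab (φ n) (e.injOn hn1 hn2 ?_)
      rw [hef, ha, hb]
    · exact ⟨p.1, p.2, hp, e1, e2⟩
  intro x x' hxx
  by_contra hne
  have hD : D = univ := IsClopen.eq_univ ⟨hDc, hDo⟩ ⟨f x, x, x', hne, rfl, hxx.symm⟩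
  have hnt : Nontrivial E := ⟨x, x', hne⟩
  -- a point far away
  obtain ⟨M, hM⟩ := ((isCompact_closedBall (0 : E) R).image hfc).isBounded.exists_norm_le
  obtain ⟨z, hz⟩ := NormedSpace.exists_lt_norm ℝ E (max M R)
  have hz1 : M < ‖z‖ := lt_of_le_of_lt (le_max_left _ _) hz
  have hz2 : R < ‖z‖ := lt_of_le_of_lt (le_max_right _ _) hz
  obtain ⟨a, b, hab, ha, hb⟩ : z ∈ D := by rw [hD]; exact mem_univ z
  have key : ∀ c, f c = z → c = z := by
    intro c hc
    by_cases h1 : R ≤ ‖c‖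
    · rw [← hc, hR c h1]
    · exfalso
      have := hM z ⟨c, by rw [mem_closedBall_zero_iff]; exact (not_le.1 h1).le, hc⟩
      linarith
  exact hab ((key a ha).trans (key b hb).symm)

theorem isDiffeo_of_local {f : E → E} (hf : ContDiff ℝ ∞ f)
    (h : ∀ x, Injective (fderiv ℝ f x)) {R : ℝ} (hR : ∀ x, R ≤ ‖x‖ → f x = x) : IsDiffeo f := by
  have hb := bijective_of_local hf h hR
  let e := Equiv.ofBijective f hb
  exact ⟨hf, e.symm, inv_smooth hf h e.left_inv e.right_inv, e.left_inv, e.right_inv⟩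

theorem IsDiffeo.inj {f : E → E} (hf : IsDiffeo f) (x : E) : Injective (fderiv ℝ f x) := by
  obtain ⟨hf, g, hg, hl, hr⟩ := hf
  have h1 : HasFDerivAt f (fderiv ℝ f x) x := (hf.differentiable (by simp) x).hasFDerivAt
  have h2 : HasFDerivAt g (fderiv ℝ g (f x)) (f x) :=
    (hg.differentiable (by simp) (f x)).hasFDerivAt
  have h3 := h2.comp x h1
  have h4 : g ∘ f = _root_.id := funext hl
  rw [h4] at h3
  have h5 := h3.unique (hasFDerivAt_id x)
  intro v w hvw
  have e1 := DFunLike.congr_fun h5 v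
  have e2 := DFunLike.congr_fun h5 w
  rw [ContinuousLinearMap.comp_apply] at e1 e2
  rw [hvw] at e1
  exact e1.symm.trans e2

/-- `f` is smoothly isotopic to the identity, with compact support -/
def Triv (f : E → E) : Prop :=
  ∃ (Φ : ℝ × E → E) (R : ℝ), ContDiff ℝ ∞ Φ ∧ (∀ t x, Injective (fderiv ℝ (fun y => Φ (t, y)) x)) ∧
    (∀ t x, R ≤ ‖x‖ → Φ (t, x) = x) ∧ (∀ x, Φ (0, x) = x) ∧ ∀ x, Φ (1, x) = f x

theorem slice {F : Type} [NormedAddCommGroup F] [NormedSpace ℝ F] {Φ : ℝ × E → F}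
    (h : ContDiff ℝ ∞ Φ) (t : ℝ) : ContDiff ℝ ∞ (fun y => Φ (t, y)) :=
  h.comp (contDiff_const.prodMk contDiff_id)

theorem Triv.comp {f g : E → E} (hf : Triv f) (hg : Triv g) : Triv (fun x => f (g x)) := by
  obtain ⟨Φ, R, h1, h2, h3, h4, h5⟩ := hf
  obtain ⟨Γ, R', g1, g2, g3, g4, g5⟩ := hg
  refine ⟨fun p => Φ (p.1, Γ p), max R R', h1.comp (contDiff_fst.prodMk g1), ?_, ?_, ?_, ?_⟩
  · intro t x
    have e1 : HasFDerivAt (fun y => Γ (t, y)) (fderiv ℝ (fun y => Γ (t, y)) x) x :=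
      ((slice g1 t).differentiable (by simp) x).hasFDerivAt
    have e2 : HasFDerivAt (fun y => Φ (t, y)) (fderiv ℝ (fun y => Φ (t, y)) (Γ (t, x))) (Γ (t, x)) :=
      ((slice h1 t).differentiable (by simp) _).hasFDerivAt
    have e3 := e2.comp x e1
    have e4 : ((fun y => Φ (t, y)) ∘ fun y => Γ (t, y)) = fun y => Φ (t, Γ (t, y)) := rfl
    rw [e4] at e3
    rw [e3.fderiv]
    intro v w hvw
    exact g2 t x (h2 t _ hvw)
  · intro t x hx
    have e1 := g3 t x ((le_max_right _ _).trans hx)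
    show Φ (t, Γ (t, x)) = x
    rw [e1]
    exact h3 t x ((le_max_left _ _).trans hx)
  · intro x
    show Φ (0, Γ (0, x)) = x
    rw [g4, h4]
  · intro x
    show Φ (1, Γ (1, x)) = f (g x)
    rw [g5, h5]

/-- the map `(t, x) ↦ (t, Φ (t, x))` -/
theorem hat_inj {Φ : ℝ × E → E} (h1 : ContDiff ℝ ∞ Φ)
    (h2 : ∀ t x, Injective (fderiv ℝ (fun y => Φ (t, y)) x)) (q : ℝ × E) :
    Injective (fderiv ℝ (fun p : ℝ × E => (p.1, Φ p)) q) := by
  have e1 : HasFDerivAt Φ (fderiv ℝ Φ q) q := (h1.differentiable (by simp) q).hasFDerivAt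
  have e2 : HasFDerivAt (fun p : ℝ × E => (p.1, Φ p))
      ((ContinuousLinearMap.fst ℝ ℝ E).prod (fderiv ℝ Φ q)) q :=
    (ContinuousLinearMap.fst ℝ ℝ E).hasFDerivAt.prodMk e1
  rw [e2.fderiv]
  have e3 : HasFDerivAt (fun y => Φ (q.1, y)) ((fderiv ℝ Φ q).comp (ContinuousLinearMap.inr ℝ ℝ E))
      q.2 := by
    have e4 : HasFDerivAt (𝕜 := ℝ) (fun y : E => (q.1, y)) (ContinuousLinearMap.inr ℝ ℝ E) q.2 :=
      hasFDerivAt_prodMk_right q.1 q.2
    exact HasFDerivAt.comp (g := Φ) (f := fun y : E => (q.1, y)) q.2 e1 e4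
  rw [injective_iff_map_eq_zero]
  rintro ⟨s, v⟩ hm
  have hm' : (s, fderiv ℝ Φ q (s, v)) = ((0 : ℝ), (0 : E)) := hm
  obtain ⟨hs, hv⟩ := Prod.mk.inj hm'
  subst hs
  have h5 := h2 q.1 q.2
  rw [e3.fderiv] at h5
  have h6 : v = 0 := by
    apply h5
    rw [map_zero]
    exact hv
  rw [h6]
  rfl

theorem Triv.inv {f g : E → E} (hf : Triv f) (hr : RightInverse g f) : Triv g := by
  obtain ⟨Φ, R, h1, h2, h3, h4, h5⟩ := hf
  have hb : ∀ t, Bijective (fun y => Φ (t, y)) := fun t =>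
    bijective_of_local (slice h1 t) (h2 t) (h3 t)
  let e : ∀ t : ℝ, E ≃ E := fun t => Equiv.ofBijective _ (hb t)
  have he : ∀ t x, e t x = Φ (t, x) := fun t x => rfl
  let Ψ : ℝ × E → E := fun p => (e p.1).symm p.2
  have hΨ1 : ∀ t x, Φ (t, Ψ (t, x)) = x := fun t x => (e t).apply_symm_apply x
  have hΨ2 : ∀ t x, Ψ (t, Φ (t, x)) = x := fun t x => (e t).symm_apply_apply x
  have hs : ContDiff ℝ ∞ (fun p : ℝ × E => (p.1, Ψ p)) := by
    refine inv_smooth (f := fun p : ℝ × E => (p.1, Φ p)) (contDiff_fst.prodMk h1)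
      (hat_inj h1 h2) ?_ ?_
    · rintro ⟨t, x⟩
      show (t, Ψ (t, Φ (t, x))) = (t, x)
      rw [hΨ2]
    · rintro ⟨t, x⟩
      show (t, Φ (t, Ψ (t, x))) = (t, x)
      rw [hΨ1]
  have hs2 : ContDiff ℝ ∞ Ψ := contDiff_snd.comp hs
  refine ⟨Ψ, R, hs2, ?_, ?_, ?_, ?_⟩
  · intro t x
    exact IsDiffeo.inj ⟨slice hs2 t, _, slice h1 t, hΨ1 t, hΨ2 t⟩ x
  · intro t x hx
    have := hΨ2 t x
    rwa [h3 t x hx] at this
  · intro x
    have := hΨ2 0 x
    rwa [h4] at this
  · intro x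
    have := hΨ2 1 (g x)
    rwa [h5, hr x] at this

/-- a path of local diffeomorphisms for times in `[0, 1]` is enough -/
theorem triv_of_path {f : E → E} {G : ℝ × E → E} {R : ℝ} (h1 : ContDiff ℝ ∞ G)
    (h2 : ∀ t ∈ Icc (0 : ℝ) 1, ∀ x, Injective (fderiv ℝ (fun y => G (t, y)) x))
    (h3 : ∀ t ∈ Icc (0 : ℝ) 1, ∀ x, R ≤ ‖x‖ → G (t, x) = x) (h4 : ∀ x, G (0, x) = x)
    (h5 : ∀ x, G (1, x) = f x) : Triv f := by
  have hm : ∀ t : ℝ, Real.smoothTransition t ∈ Icc (0 : ℝ) 1 := fun t =>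
    ⟨Real.smoothTransition.nonneg t, Real.smoothTransition.le_one t⟩
  refine ⟨fun p => G (Real.smoothTransition p.1, p.2), R, ?_, fun t x => h2 _ (hm t) x,
    fun t x hx => h3 _ (hm t) x hx, fun x => ?_, fun x => ?_⟩
  · exact h1.comp ((Real.smoothTransition.contDiff.comp contDiff_fst).prodMk contDiff_snd)
  · show G (Real.smoothTransition 0, x) = x
    rw [Real.smoothTransition.zero]
    exact h4 x
  · show G (Real.smoothTransition 1, x) = f x
    rw [Real.smoothTransition.one]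
    exact h5 x

theorem Triv.isotopy {f : E → E} (h : Triv f) : ∃ (Φ : ℝ → E → E) (R : ℝ),
    ContDiff ℝ ∞ (fun p : ℝ × E => Φ p.1 p.2) ∧ (∀ t, IsDiffeo (Φ t)) ∧
      (∀ t x, R ≤ ‖x‖ → Φ t x = x) ∧ (∀ x, Φ 0 x = x) ∧ ∀ x, Φ 1 x = f x := by
  obtain ⟨Φ, R, h1, h2, h3, h4, h5⟩ := h
  exact ⟨fun t x => Φ (t, x), R, h1, fun t => isDiffeo_of_local (slice h1 t) (h2 t) (h3 t),
    h3, h4, h5⟩

end

end Pool.Agent.H83.BI
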