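import Pool.Agent.H83.BI.Main

/-! Chains of transverse submersions. -/

set_option autoImplicit false
set_option linter.unusedSectionVars false

open Set Filter Topology Metric Function
open scoped ContDiff

namespace Pool.Agent.H83.BI

section

variable {E F : Type} [NormedAddCommGroup E] [NormedSpace ℝ E] [FiniteDimensional ℝ E]
  [NormedAddCommGroup F] [NormedSpace ℝ F] [FiniteDimensional ℝ F]

/-- linear off a ball -/
def Std (A : E → F) : Prop := ∃ (α : E →L[ℝ] F) (R : ℝ), ∀ x, R ≤ ‖x‖ → A x = α x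

/-- transverse maps, linear off a ball -/
def Step (A B : E → F) : Prop :=
  ContDiff ℝ ∞ A ∧ ContDiff ℝ ∞ B ∧ Std A ∧ Std B ∧
    ∀ x, Bijective (fun v => (fderiv ℝ A x v, fderiv ℝ B x v))

theorem Step.symm {A B : E → F} (h : Step A B) : Step B A := by
  obtain ⟨h1, h2, h3, h4, h5⟩ := h
  refine ⟨h2, h1, h4, h3, fun x => ?_⟩
  have : (fun v => (fderiv ℝ B x v, fderiv ℝ A x v)) =
      Prod.swap ∘ (fun v => (fderiv ℝ A x v, fderiv ℝ B x v)) := rfl
  rw [this]
  exact Prod.swap_bijective.comp (h5 x)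

theorem triv_id : Triv (fun x : E => x) := by
  refine ⟨fun p => p.2, 0, contDiff_snd, fun t x => ?_, fun t x _ => rfl, fun x => rfl,
    fun x => rfl⟩
  show Injective (fderiv ℝ (fun y : E => y) x)
  rw [fderiv_fun_id]
  exact injective_id

theorem Triv.isDiffeo {f : E → E} (h : Triv f) : IsDiffeo f := by
  obtain ⟨Φ, R, h1, h2, h3, h4, h5⟩ := h.isotopy
  have := h2 1
  rwa [show Φ 1 = f from funext h5] at this

theorem Triv.far {f : E → E} (h : Triv f) : ∃ R : ℝ, ∀ x, R ≤ ‖x‖ → f x = x := by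
  obtain ⟨Φ, R, h1, h2, h3, h4, h5⟩ := h.isotopy
  exact ⟨R, fun x hx => by rw [← h5, h3 1 x hx]⟩

theorem IsDiffeo.comp {f g : E → E} (hf : IsDiffeo f) (hg : IsDiffeo g) :
    IsDiffeo (fun x => f (g x)) := by
  obtain ⟨h1, f', h2, h3, h4⟩ := hf
  obtain ⟨g1, g', g2, g3, g4⟩ := hg
  refine ⟨h1.comp g1, fun x => g' (f' x), g2.comp h2, fun x => ?_, fun x => ?_⟩
  · show g' (f' (f (g x))) = x
    rw [h3, g3]
  · show f (g (g' (f' x))) = x
    rw [g4, h4]

/-- quotients of diffeomorphisms with the same image under a projection -/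
theorem triv_quot (π : E →L[ℝ] F) (hπ : Module.finrank ℝ (LinearMap.ker (π : E →ₗ[ℝ] F)) ≤ 2)
    {f φ : E → E} (hf : IsDiffeo f) (hfR : ∃ R : ℝ, ∀ x, R ≤ ‖x‖ → f x = x) (hφ : Triv φ)
    (h : ∀ x, π (f x) = π (φ x)) : Triv f := by
  obtain ⟨φs, ψ, ψs, hl, hr⟩ := hφ.isDiffeo
  have hψ : Triv ψ := hφ.inv hr
  obtain ⟨R, hR⟩ := hfR
  obtain ⟨R', hR'⟩ := hψ.far
  have h1 : Triv (fun x => f (ψ x)) := by
    refine triv_of_fiber_two π hπ _ (hf.comp hψ.isDiffeo) ⟨max R R', fun x hx => ?_⟩ fun x => ?_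
    · rw [hR' x ((le_max_right _ _).trans hx), hR x ((le_max_left _ _).trans hx)]
    · rw [h, hr]
  have h2 := h1.comp hφ
  have h3 : (fun x => f (ψ (φ x))) = f := by
    funext x
    rw [hl]
  simpa only [h3] using h2

theorem eq_of_far {α β : E →L[ℝ] F} {R : ℝ} (h : ∀ x, R ≤ ‖x‖ → α x = β x) : α = β := by
  ext x
  by_cases hx : x = 0
  · rw [hx, map_zero, map_zero]
  have hx0 : 0 < ‖x‖ := norm_pos_iff.2 hx
  obtain ⟨c, hc⟩ : ∃ c : ℝ, c = (|R| + 1) / ‖x‖ := ⟨_, rfl⟩
  have hc0 : 0 < c := by rw [hc]; positivity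
  have h1 := h (c • x) (by
    rw [norm_smul, Real.norm_eq_abs, abs_of_pos hc0, hc, div_mul_cancel₀ _ hx0.ne']
    linarith [le_abs_self R])
  rw [map_smul, map_smul] at h1
  exact smul_right_injective F hc0.ne' h1

theorem fderiv_far {A : E → F} {α : E →L[ℝ] F} {R : ℝ} (h : ∀ x, R ≤ ‖x‖ → A x = α x) {x : E}
    (hx : R < ‖x‖) : fderiv ℝ A x = α := by
  have : A =ᶠ[𝓝 x] α := by
    filter_upwards [(isOpen_lt continuous_const continuous_norm).mem_nhds hx] with y hy
    exact h y (le_of_lt hy)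
  rw [this.fderiv_eq, α.fderiv]

/-- the equivalence given by two transverse linear maps -/
theorem exists_prod_equiv {α β : E →L[ℝ] F} (h : Bijective (fun v => (α v, β v))) :
    ∃ e : E ≃L[ℝ] F × F, (∀ v, e v = (α v, β v)) := by
  have h' : Bijective ((α.prod β : E →L[ℝ] F × F) : E →ₗ[ℝ] F × F) := h
  exact ⟨(LinearEquiv.ofBijective _ h').toContinuousLinearEquiv, fun v => rfl⟩

theorem finrank_ker_of_prod {α β : E →L[ℝ] F} (h : Bijective (fun v => (α v, β v))) :
    Module.finrank ℝ (LinearMap.ker (α : E →ₗ[ℝ] F)) = Module.finrank ℝ F := by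
  obtain ⟨e, he⟩ := exists_prod_equiv h
  have h1 := LinearMap.finrank_range_add_finrank_ker (α : E →ₗ[ℝ] F)
  have h2 : LinearMap.range (α : E →ₗ[ℝ] F) = ⊤ := by
    rw [LinearMap.range_eq_top]
    intro y
    obtain ⟨v, hv⟩ := h.2 (y, 0)
    exact ⟨v, congrArg Prod.fst hv⟩
  have h3 : Module.finrank ℝ E = Module.finrank ℝ (F × F) := e.toLinearEquiv.finrank_eq
  rw [h2, finrank_top, h3, Module.finrank_prod] at h1
  omega

theorem chain_aux [Nontrivial E] (hF : Module.finrank ℝ F ≤ 2) (π : E →L[ℝ] F) {A : E → F}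
    (h : Relation.ReflTransGen Step (fun x => π x) A) :
    ∃ (φ : E → E) (α : E →L[ℝ] F), Triv φ ∧ ∀ x, A x = α (φ x) := by
  induction h with
  | refl => exact ⟨fun x => x, π, triv_id, fun x => rfl⟩
  | @tail A B _ hstep ih =>
    obtain ⟨φ, α, hφ, hA⟩ := ih
    obtain ⟨hAs, hBs, -, ⟨β, RB, hβ⟩, hbij⟩ := hstep
    obtain ⟨Rφ, hRφ⟩ := hφ.far
    have hAα : ∀ x, max Rφ RB ≤ ‖x‖ → A x = α x := fun x hx => by
      rw [hA, hRφ x ((le_max_left _ _).trans hx)]
    have hBβ : ∀ x, max Rφ RB ≤ ‖x‖ → B x = β x := fun x hx =>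
      hβ x ((le_max_right _ _).trans hx)
    obtain ⟨x₀, hx₀⟩ := NormedSpace.exists_lt_norm ℝ E (max Rφ RB)
    have hb := hbij x₀
    rw [fderiv_far hAα hx₀, fderiv_far hBβ hx₀] at hb
    obtain ⟨e, he⟩ := exists_prod_equiv hb
    have hk : Module.finrank ℝ (LinearMap.ker (α : E →ₗ[ℝ] F)) ≤ 2 := by
      rw [finrank_ker_of_prod hb]; exact hF
    set φ' : E → E := fun x => e.symm (A x, B x) with hφ'
    have hs : ContDiff ℝ ∞ φ' := e.symm.contDiff.comp (hAs.prodMk hBs)
    have hfar : ∀ x, max Rφ RB ≤ ‖x‖ → φ' x = x := fun x hx => by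
      simp only [hφ']
      rw [hAα x hx, hBβ x hx, ← he, e.symm_apply_apply]
    have hinj : ∀ x, Injective (fderiv ℝ φ' x) := by
      intro x
      have e1 : HasFDerivAt φ' ((e.symm : F × F →L[ℝ] E).comp
          ((fderiv ℝ A x).prod (fderiv ℝ B x))) x :=
        (e.symm : F × F →L[ℝ] E).hasFDerivAt.comp x
          (((hAs.differentiable (by simp) x).hasFDerivAt).prodMk
            ((hBs.differentiable (by simp) x).hasFDerivAt))
      rw [e1.fderiv]
      intro v w hvw
      exact (hbij x).1 (e.symm.injective hvw)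
    have hd : IsDiffeo φ' := isDiffeo_of_local hs hinj hfar
    have hα' : ∀ x, e (φ' x) = (A x, B x) := fun x => e.apply_symm_apply _
    have hα1 : ∀ x, α (φ' x) = A x := fun x => by
      have := hα' x
      rw [he] at this
      exact congrArg Prod.fst this
    have hα2 : ∀ x, β (φ' x) = B x := fun x => by
      have := hα' x
      rw [he] at this
      exact congrArg Prod.snd this
    exact ⟨φ', β, triv_quot α hk hd ⟨_, hfar⟩ hφ fun x => by rw [hα1, hA], fun x => (hα2 x).symm⟩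

/-- **Chains of transverse submersions give isotopies.** -/
theorem triv_of_chain [Nontrivial E] (hF : Module.finrank ℝ F ≤ 2) (π : E →L[ℝ] F)
    (hπ : Module.finrank ℝ (LinearMap.ker (π : E →ₗ[ℝ] F)) ≤ 2)
    {f : E → E} (hf : IsDiffeo f) (hfR : ∃ R : ℝ, ∀ x, R ≤ ‖x‖ → f x = x)
    (h : Relation.ReflTransGen Step (fun x => π x) (fun x => π (f x))) : Triv f := by
  obtain ⟨φ, α, hφ, hA⟩ := chain_aux hF π h
  obtain ⟨R, hR⟩ := hfR
  obtain ⟨R', hR'⟩ := hφ.far
  have hα : π = α := by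
    refine eq_of_far (R := max R R') fun x hx => ?_
    have h1 := hA x
    rwa [hR x ((le_max_left _ _).trans hx), hR' x ((le_max_right _ _).trans hx)] at h1
  subst hα
  exact triv_quot π hπ hf ⟨R, hR⟩ hφ hA

/-- **Isotopies give chains of transverse submersions.** -/
theorem chain_of_triv (π σ : E →L[ℝ] F) (hπσ : Bijective (fun v => (π v, σ v)))
    {f : E → E} (h : Triv f) :
    Relation.ReflTransGen Step (fun x => π x) (fun x => π (f x)) := by
  obtain ⟨Φ, R, h1, h2, h3, h4, h5⟩ := h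
  obtain ⟨e, he⟩ := exists_prod_equiv hπσ
  have hd : ∀ t x, HasFDerivAt (fun y => Φ (t, y)) (fderiv ℝ (fun y => Φ (t, y)) x) x :=
    fun t x => ((slice h1 t).differentiable (by simp) x).hasFDerivAt
  have hd2 : ∀ (α : E →L[ℝ] F) t x, fderiv ℝ (fun y => α (Φ (t, y))) x =
      α.comp (fderiv ℝ (fun y => Φ (t, y)) x) := fun α t x =>
    (α.hasFDerivAt.comp x (hd t x)).fderiv
  have hbd : ∀ t x, Bijective (fderiv ℝ (fun y => Φ (t, y)) x) := fun t x =>
    ⟨h2 t x, (LinearMap.injective_iff_surjective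
      (f := ((fderiv ℝ (fun y => Φ (t, y)) x : E →L[ℝ] E) : E →ₗ[ℝ] E))).1 (h2 t x)⟩
  have hstd : ∀ (α : E →L[ℝ] F) t, Std (fun y => α (Φ (t, y))) := fun α t =>
    ⟨α, R, fun x hx => by
      show α (Φ (t, x)) = α x
      rw [h3 t x hx]⟩
  have hsm : ∀ (α : E →L[ℝ] F) t, ContDiff ℝ ∞ (fun y => α (Φ (t, y))) := fun α t =>
    α.contDiff.comp (slice h1 t)
  have s1 : ∀ t, Step (fun x => π (Φ (t, x))) (fun x => σ (Φ (t, x))) := by
    intro t
    refine ⟨hsm π t, hsm σ t, hstd π t, hstd σ t, fun x => ?_⟩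
    rw [hd2, hd2]
    exact hπσ.comp (hbd t x)
  have s2 : ∀ s, ∀ᶠ t in 𝓝 s, Step (fun x => σ (Φ (s, x))) (fun x => π (Φ (t, x))) := by
    intro s
    -- the derivative as a function of the time and the point
    have hc : Continuous (fun p : ℝ × E => fderiv ℝ (fun y => Φ (p.1, y)) p.2) := by
      have e1 : (fun p : ℝ × E => fderiv ℝ (fun y => Φ (p.1, y)) p.2) =
          fun p => (fderiv ℝ Φ p).comp (ContinuousLinearMap.inr ℝ ℝ E) := by
        funext p
        have e2 : HasFDerivAt Φ (fderiv ℝ Φ (p.1, p.2)) (p.1, p.2) :=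
          (h1.differentiable (by simp) _).hasFDerivAt
        have e3 : HasFDerivAt (fun y : E => (p.1, y)) (ContinuousLinearMap.inr ℝ ℝ E) p.2 :=
          hasFDerivAt_prodMk_right p.1 p.2
        exact (e2.comp p.2 e3).fderiv
      rw [e1]
      exact (h1.continuous_fderiv (by simp)).clm_comp continuous_const
    set M : ℝ × E → (E →L[ℝ] E) := fun p => (e.symm : F × F →L[ℝ] E).comp
      ((π.comp (fderiv ℝ (fun y => Φ (p.1, y)) p.2)).prod
        (σ.comp (fderiv ℝ (fun y => Φ (s, y)) p.2))) with hM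
    have hMc : Continuous M := by
      have c1 : Continuous (fun p : ℝ × E => fderiv ℝ (fun y => Φ (s, y)) p.2) :=
        hc.comp (continuous_const.prodMk continuous_snd)
      refine continuous_const.clm_comp ?_
      exact (ContinuousLinearMap.prodₗᵢ ℝ).continuous.comp
        ((continuous_const.clm_comp hc).prodMk (continuous_const.clm_comp c1))
    have hM0 : ∀ x, M (s, x) = fderiv ℝ (fun y => Φ (s, y)) x := by
      intro x
      ext v
      show e.symm (π (fderiv ℝ (fun y => Φ (s, y)) x v), σ (fderiv ℝ (fun y => Φ (s, y)) x v)) = _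
      rw [← he, e.symm_apply_apply]
    have hMu : ∀ᶠ t in 𝓝 s, ∀ x ∈ closedBall (0 : E) R, IsUnit (M (t, x)) := by
      apply (isCompact_closedBall (0 : E) R).eventually_forall_of_forall_eventually
      intro x _
      have h6 : IsUnit (M (s, x)) := by
        rw [hM0, ContinuousLinearMap.isUnit_iff_bijective]
        exact hbd s x
      exact hMc.continuousAt.eventually (Units.isOpen.mem_nhds h6)
    filter_upwards [hMu] with t ht
    refine Step.symm ⟨hsm π t, hsm σ s, hstd π t, hstd σ s, fun x => ?_⟩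
    rw [hd2, hd2]
    have h7 : IsUnit (M (t, x)) := by
      rcases lt_or_ge R ‖x‖ with hx | hx
      · have h8 : M (t, x) = ContinuousLinearMap.id ℝ E := by
          have h9 : ∀ t', fderiv ℝ (fun y => Φ (t', y)) x = ContinuousLinearMap.id ℝ E := by
            intro t'
            refine fderiv_far (α := ContinuousLinearMap.id ℝ E) (R := R) ?_ hx
            intro y hy
            exact h3 t' y hy
          simp only [hM]
          rw [h9, h9]
          ext v
          show e.symm (π v, σ v) = v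
          rw [← he, e.symm_apply_apply]
        rw [h8]
        exact isUnit_one
      · exact ht x (mem_closedBall_zero_iff.2 hx)
    rw [ContinuousLinearMap.isUnit_iff_bijective] at h7
    have h10 := e.bijective.comp h7
    have h11 : (fun v => (π.comp (fderiv ℝ (fun y => Φ (t, y)) x) v,
        σ.comp (fderiv ℝ (fun y => Φ (s, y)) x) v)) = e ∘ (M (t, x)) := by
      funext v
      exact (e.apply_symm_apply _).symm
    rw [h11]
    exact h10
  have s3 : ∀ s t : ℝ, Relation.ReflTransGen Step (fun x => π (Φ (s, x))) (fun x => π (Φ (t, x))) := by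
    intro s t
    refine isPreconnected_univ.induction₂
      (fun s t : ℝ => Relation.ReflTransGen Step (fun x => π (Φ (s, x))) (fun x => π (Φ (t, x))))
      ?_ ?_ ?_ (mem_univ s) (mem_univ t)
    · intro s _
      rw [nhdsWithin_univ]
      filter_upwards [s2 s] with t ht
      exact (Relation.ReflTransGen.single (s1 s)).tail ht
    · intro a b c _ _ _ h6 h7
      exact h6.trans h7
    · intro a b _ _ h6
      haveI : Std.Symm (Step : (E → F) → (E → F) → Prop) := ⟨fun _ _ => Step.symm⟩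
      exact Std.Symm.symm (r := Relation.ReflTransGen (Step : (E → F) → (E → F) → Prop)) _ _ h6
  have h6 := s3 0 1
  simpa only [h4, h5] using h6

/-- **Planes.** If no vector of the plane `V` is mapped to the plane `W` by a differential of `f`, then
`f` is isotopic to the identity. -/
theorem triv_of_planes (hE : Module.finrank ℝ E = 4) (V W : Submodule ℝ E)
    (hV : Module.finrank ℝ V = 2) (hW : Module.finrank ℝ W = 2)
    {f : E → E} (hf : IsDiffeo f) (hfR : ∃ R : ℝ, ∀ x, R ≤ ‖x‖ → f x = x)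
    (h : ∀ x, ∀ v ∈ V, fderiv ℝ f x v ∈ W → v = 0) : Triv f := by
  have hnt : Nontrivial E := Module.nontrivial_of_finrank_pos (R := ℝ) (by omega)
  have hq : ∀ V : Submodule ℝ E, Module.finrank ℝ V = 2 → ∃ π : E →L[ℝ] ℝ × ℝ,
      Surjective π ∧ ∀ v, π v = 0 ↔ v ∈ V := by
    intro V hV
    have h1 : Module.finrank ℝ (E ⧸ V) = Module.finrank ℝ (ℝ × ℝ) := by
      have := Submodule.finrank_quotient_add_finrank V
      rw [Module.finrank_prod, Module.finrank_self]
      omega
    let u : (E ⧸ V) ≃ₗ[ℝ] ℝ × ℝ := LinearEquiv.ofFinrankEq _ _ h1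
    refine ⟨LinearMap.toContinuousLinearMap ((u : (E ⧸ V) →ₗ[ℝ] ℝ × ℝ).comp V.mkQ), ?_, ?_⟩
    · exact u.surjective.comp V.mkQ_surjective
    · intro v
      show u (V.mkQ v) = 0 ↔ _
      rw [LinearEquiv.map_eq_zero_iff, Submodule.mkQ_apply, Submodule.Quotient.mk_eq_zero]
  obtain ⟨ρ, hρs, hρ⟩ := hq V hV
  obtain ⟨π, hπs, hπ⟩ := hq W hW
  have hfd : ∀ x, HasFDerivAt f (fderiv ℝ f x) x := fun x =>
    (hf.1.differentiable (by simp) x).hasFDerivAt
  -- a map of spaces of dimension 4 with zero kernel is bijective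
  have hb : ∀ A : E →L[ℝ] E, (∀ v ∈ V, A v ∈ W → v = 0) → Bijective (fun v => (ρ v, π (A v))) := by
    intro A hA
    have hi : Injective ((ρ.prod (π.comp A) : E →L[ℝ] (ℝ × ℝ) × (ℝ × ℝ)) :
        E →ₗ[ℝ] (ℝ × ℝ) × (ℝ × ℝ)) := by
      rw [injective_iff_map_eq_zero]
      intro v hv
      have h1 : ρ v = 0 := congrArg Prod.fst hv
      have h2 : π (A v) = 0 := congrArg Prod.snd hv
      exact hA v ((hρ v).1 h1) ((hπ _).1 h2)
    refine ⟨hi, ?_⟩
    refine (LinearMap.injective_iff_surjective_of_finrank_eq_finrank ?_).1 hi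
    rw [hE]
    simp
  obtain ⟨R, hR⟩ := hfR
  obtain ⟨x₀, hx₀⟩ := NormedSpace.exists_lt_norm ℝ E R
  have hid : fderiv ℝ f x₀ = ContinuousLinearMap.id ℝ E :=
    fderiv_far (α := ContinuousLinearMap.id ℝ E) (R := R) hR hx₀
  have hVW : ∀ v ∈ V, v ∈ W → v = 0 := by
    intro v hv hw
    refine h x₀ v hv ?_
    rw [hid]
    exact hw
  have hπk : Module.finrank ℝ (LinearMap.ker (π : E →ₗ[ℝ] ℝ × ℝ)) ≤ 2 := by
    have h1 : LinearMap.ker (π : E →ₗ[ℝ] ℝ × ℝ) = W := by
      ext v
      exact hπ v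
    rw [h1, hW]
  have hst : Std (fun x => ρ x) := ⟨ρ, 0, fun x _ => rfl⟩
  have hst2 : Std (fun x => π x) := ⟨π, 0, fun x _ => rfl⟩
  have hst3 : Std (fun x => π (f x)) := ⟨π, R, fun x hx => by
    show π (f x) = π x
    rw [hR x hx]⟩
  have c1 : Step (fun x => ρ x) (fun x => π x) := by
    refine ⟨ρ.contDiff, π.contDiff, hst, hst2, fun x => ?_⟩
    rw [show fderiv ℝ (fun x => ρ x) x = ρ from ρ.fderiv,
      show fderiv ℝ (fun x => π x) x = π from π.fderiv]
    exact hb (ContinuousLinearMap.id ℝ E) hVW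
  have c2 : Step (fun x => ρ x) (fun x => π (f x)) := by
    refine ⟨ρ.contDiff, π.contDiff.comp hf.1, hst, hst3, fun x => ?_⟩
    rw [show fderiv ℝ (fun x => ρ x) x = ρ from ρ.fderiv,
      show fderiv ℝ (fun x => π (f x)) x = π.comp (fderiv ℝ f x) from
        (π.hasFDerivAt.comp x (hfd x)).fderiv]
    exact hb (fderiv ℝ f x) (h x)
  exact triv_of_chain (by simp) π hπk hf ⟨R, hR⟩
    ((Relation.ReflTransGen.single c1.symm).tail c2)

end

end Pool.Agent.H83.BI
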