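import Pool.Agent.H83.BI.Mean

/-! Diffeomorphisms of small distortion. -/

set_option autoImplicit false
set_option linter.unusedSectionVars false

open Set Filter Topology Metric Function MeasureTheory
open scoped ContDiff RealInnerProductSpace

namespace Pool.Agent.H83.BI

section

variable {E : Type} [NormedAddCommGroup E] [InnerProductSpace ℝ E] [FiniteDimensional ℝ E]
  [MeasurableSpace E] [BorelSpace E]

/-- half the length of a chord of the unit ball -/
noncomputable def hc {V : Type} [NormedAddCommGroup V] (y : V) : ℝ := Real.sqrt (1 - ‖y‖ ^ 2)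

theorem hc_cont {V : Type} [NormedAddCommGroup V] : Continuous (hc : V → ℝ) :=
  Real.continuous_sqrt.comp (by fun_prop)

theorem hc_sq {V : Type} [NormedAddCommGroup V] {y : V} (hy : ‖y‖ ≤ 1) :
    hc y ^ 2 = 1 - ‖y‖ ^ 2 := by
  unfold hc
  rw [Real.sq_sqrt]
  nlinarith [norm_nonneg y]

theorem hc_far {V : Type} [NormedAddCommGroup V] {y : V} (hy : 1 ≤ ‖y‖) : hc y = 0 := by
  unfold hc
  rw [Real.sqrt_eq_zero']
  nlinarith [norm_nonneg y]

/-- coordinates `(s, y) ↦ s v + y` -/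
theorem exists_coord {v : E} (hv : ‖v‖ = 1) {V : Submodule ℝ E} (hV : V = (ℝ ∙ v)ᗮ) :
    ∃ T : ℝ × V → E, MeasurePreserving T ∧ MeasurableEmbedding T ∧
      (∀ p, T p = p.1 • v + (p.2 : E)) := by
  have hperp : ∀ y : V, ⟪v, (y : E)⟫ = 0 := fun y =>
    (Submodule.mem_orthogonal_singleton_iff_inner_right).1 (hV ▸ y.2)
  let A₀ : WithLp 2 (ℝ × V) →ₗ[ℝ] E :=
    { toFun := fun p => p.fst • v + (p.snd : E)
      map_add' := fun p q => by simp only [WithLp.add_fst, WithLp.add_snd, Submodule.coe_add]; module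
      map_smul' := fun c p => by
        simp only [WithLp.smul_fst, WithLp.smul_snd, Submodule.coe_smul, smul_eq_mul,
          RingHom.id_apply]
        module }
  have hA₀ : ∀ p, ‖A₀ p‖ = ‖p‖ := by
    intro p
    have h1 : ‖A₀ p‖ ^ 2 = ‖p‖ ^ 2 := by
      show ‖p.fst • v + (p.snd : E)‖ ^ 2 = _
      rw [WithLp.prod_norm_sq_eq_of_L2, norm_add_sq_real, norm_smul, inner_smul_left, hperp, hv]
      simp
    nlinarith [norm_nonneg (A₀ p), norm_nonneg p, sq_nonneg (‖A₀ p‖ - ‖p‖)]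
  let A₁ : WithLp 2 (ℝ × V) →ₗᵢ[ℝ] E := ⟨A₀, hA₀⟩
  have hfin : Module.finrank ℝ (WithLp 2 (ℝ × V)) = Module.finrank ℝ E := by
    have h1 : Module.finrank ℝ (WithLp 2 (ℝ × V)) = Module.finrank ℝ (ℝ × V) :=
      (WithLp.linearEquiv 2 ℝ (ℝ × V)).finrank_eq
    have h2 := Submodule.finrank_add_finrank_orthogonal (ℝ ∙ v)
    have hv0 : v ≠ 0 := by
      rintro rfl
      simp at hv
    rw [finrank_span_singleton hv0, ← hV] at h2
    rw [h1, Module.finrank_prod, Module.finrank_self]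
    exact h2
  let A : WithLp 2 (ℝ × V) ≃ₗᵢ[ℝ] E := A₁.toLinearIsometryEquiv hfin
  refine ⟨fun p => A (WithLp.toLp 2 p), ?_, ?_, fun p => rfl⟩
  · exact A.measurePreserving.comp (WithLp.volume_preserving_toLp ℝ V)
  · exact A.toHomeomorph.measurableEmbedding.comp
      (MeasurableEquiv.toLp 2 (ℝ × V)).measurableEmbedding

/-- integration over the unit ball by chords -/
theorem chords {G : Type} [NormedAddCommGroup G] [NormedSpace ℝ G] {v : E}
    (hv : ‖v‖ = 1) {V : Submodule ℝ E} (hV : V = (ℝ ∙ v)ᗮ) {φ : E → G} (hφ : Continuous φ) :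
    ∫ u in closedBall (0 : E) 1, φ u =
      ∫ y : V, ∫ s in (-hc y)..(hc y), φ (s • v + (y : E)) := by
  obtain ⟨T, hT, hTe, hTa⟩ := exists_coord hv hV
  have hperp : ∀ y : V, ⟪v, (y : E)⟫ = 0 := fun y =>
    (Submodule.mem_orthogonal_singleton_iff_inner_right).1 (hV ▸ y.2)
  have hTn : ∀ p, ‖T p‖ ^ 2 = p.1 ^ 2 + ‖p.2‖ ^ 2 := by
    intro p
    rw [hTa, norm_add_sq_real, norm_smul, inner_smul_left, hperp, hv]
    simp
  have hmem : ∀ s : ℝ, ∀ y : V, T (s, y) ∈ closedBall (0 : E) 1 ↔ s ^ 2 + ‖y‖ ^ 2 ≤ 1 := by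
    intro s y
    rw [mem_closedBall_zero_iff]
    have h1 := hTn (s, y)
    simp only at h1
    rw [← h1]
    constructor
    · intro h
      nlinarith [norm_nonneg (T (s, y))]
    · intro h
      nlinarith [norm_nonneg (T (s, y)), sq_nonneg (‖T (s, y)‖ - 1)]
  have hint : Integrable ((closedBall (0 : E) 1).indicator φ) :=
    (hφ.continuousOn.integrableOn_compact (isCompact_closedBall 0 1)).integrable_indicator
      isClosed_closedBall.measurableSet
  rw [← integral_indicator isClosed_closedBall.measurableSet, ← hT.integral_comp hTe]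
  have hint2 : Integrable (fun p => (closedBall (0 : E) 1).indicator φ (T p)) :=
    (hT.integrable_comp_emb hTe).2 hint
  rw [Measure.volume_eq_prod] at hint2 ⊢
  rw [integral_prod_symm _ hint2]
  congr 1
  funext y
  have hcn : 0 ≤ hc y := Real.sqrt_nonneg _
  rw [intervalIntegral.integral_of_le (by linarith), ← integral_Icc_eq_integral_Ioc,
    ← integral_indicator measurableSet_Icc]
  by_cases hy : ‖y‖ ≤ 1
  · have hsq := hc_sq hy
    congr 1
    funext s
    by_cases hs : s ^ 2 + ‖y‖ ^ 2 ≤ 1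
    · rw [indicator_of_mem ((hmem s y).2 hs), indicator_of_mem, hTa]
      rw [mem_Icc, ← abs_le]
      exact abs_le_of_sq_le_sq (by linarith) hcn
    · rw [indicator_of_notMem (fun h => hs ((hmem s y).1 h)), indicator_of_notMem]
      rw [mem_Icc, ← abs_le]
      intro h
      apply hs
      have := sq_le_sq' (by linarith [neg_abs_le s, (abs_nonneg s)]) h
      rw [sq_abs] at this
      linarith
  · push Not at hy
    have h0 : hc y = 0 := hc_far hy.le
    have h1 : ∀ s : ℝ, (closedBall (0 : E) 1).indicator φ (T (s, y)) = 0 := by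
      intro s
      apply indicator_of_notMem
      rw [hmem]
      intro h
      nlinarith [sq_nonneg s]
    simp only [h1, integral_zero]
    rw [h0, neg_zero, integral_indicator measurableSet_Icc]
    simp

/-- the four point inequality -/
theorem four_point {f : E → E} {L l : ℝ} (hL : ∀ x y, ‖f x - f y‖ ≤ L * ‖x - y‖)
    (hl : ∀ x y, l * ‖x - y‖ ≤ ‖f x - f y‖) (hl0 : 0 ≤ l) (a b c d : E) :
    l ^ 2 * (‖b - c‖ ^ 2 + ‖a - d‖ ^ 2) - L ^ 2 * (‖b - d‖ ^ 2 + ‖a - c‖ ^ 2) ≤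
      2 * ⟪f b - f a, f d - f c⟫ := by
  have h1 : 2 * ⟪f b - f a, f d - f c⟫ = ‖f b - f c‖ ^ 2 + ‖f a - f d‖ ^ 2 - ‖f b - f d‖ ^ 2 -
      ‖f a - f c‖ ^ 2 := by
    rw [norm_sub_sq_real, norm_sub_sq_real, norm_sub_sq_real, norm_sub_sq_real, inner_sub_left,
      inner_sub_right, inner_sub_right]
    ring
  have up : ∀ x y, ‖f x - f y‖ ^ 2 ≤ L ^ 2 * ‖x - y‖ ^ 2 := by
    intro x y
    rw [← mul_pow]
    exact pow_le_pow_left₀ (norm_nonneg _) (hL x y) 2
  have lo : ∀ x y, l ^ 2 * ‖x - y‖ ^ 2 ≤ ‖f x - f y‖ ^ 2 := by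
    intro x y
    rw [← mul_pow]
    exact pow_le_pow_left₀ (by positivity) (hl x y) 2
  rw [h1]
  linarith [up b d, up a c, lo b c, lo a d]

/-- **Main estimate**: the mean of `D_v f` over a ball does not vanish if the distortion is small. -/
theorem mean_ne_zero {f : E → E} (hf : ContDiff ℝ ∞ f) {L l : ℝ}
    (hL : ∀ x y, ‖f x - f y‖ ≤ L * ‖x - y‖) (hl : ∀ x y, l * ‖x - y‖ ≤ ‖f x - f y‖) (hl0 : 0 ≤ l)
    {v : E} (hv : ‖v‖ = 1) {V : Submodule ℝ E} (hV : V = (ℝ ∙ v)ᗮ)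
    (hLl : (L ^ 2 - l ^ 2) * (volume.real (closedBall (0 : V) 1)) ^ 2 <
      (L ^ 2 + l ^ 2) * (volume.real (closedBall (0 : E) 1) / 2) ^ 2)
    (x : E) {r : ℝ} (hr : 0 < r) :
    ∫ u in closedBall (0 : E) 1, fderiv ℝ f (x + r • u) v ≠ 0 := by
  have hperp : ∀ y : V, ⟪v, (y : E)⟫ = 0 := fun y =>
    (Submodule.mem_orthogonal_singleton_iff_inner_right).1 (hV ▸ y.2)
  have hfc : Continuous (fderiv ℝ f) := hf.continuous_fderiv (by simp)
  set D : Set V := closedBall (0 : V) 1 with hD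
  have hDm : MeasurableSet D := isClosed_closedBall.measurableSet
  have hDc : IsCompact D := isCompact_closedBall 0 1
  set a : V → E := fun y => x + r • (-(hc y) • v + (y : E)) with ha
  set b : V → E := fun y => x + r • (hc y • v + (y : E)) with hb
  set F : V → E := fun y => f (b y) - f (a y) with hF
  have hFc : Continuous F := by
    have h1 : Continuous (hc : V → ℝ) := hc_cont
    refine (hf.continuous.comp ?_).sub (hf.continuous.comp ?_) <;> fun_prop
  have hFint : IntegrableOn F D := hFc.continuousOn.integrableOn_compact hDc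
  have hhint : IntegrableOn (hc : V → ℝ) D := hc_cont.continuousOn.integrableOn_compact hDc
  -- the integral by chords
  have h1 : r • ∫ u in closedBall (0 : E) 1, fderiv ℝ f (x + r • u) v = ∫ y in D, F y := by
    rw [chords hv hV (φ := fun u => fderiv ℝ f (x + r • u) v)
      ((hfc.comp (by fun_prop)).clm_apply continuous_const), ← integral_smul]
    have h2 : ∀ y : V, r • ∫ s in (-hc y)..(hc y), fderiv ℝ f (x + r • (s • v + (y : E))) v =
        D.indicator F y := by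
      intro y
      have h3 : ∀ s : ℝ, HasDerivAt (fun s : ℝ => f (x + r • (s • v + (y : E))))
          (r • fderiv ℝ f (x + r • (s • v + (y : E))) v) s := by
        intro s
        have h4 : HasDerivAt (fun s : ℝ => x + r • (s • v + (y : E))) (r • v) s := by
          have h5 := ((((hasDerivAt_id' s).smul_const v).add_const (y : E)).const_smul r).const_add x
          simpa using h5
        have h6 := ((hf.differentiable (by simp) (x + r • (s • v + (y : E)))).hasFDerivAt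
          ).comp_hasDerivAt s h4
        rw [map_smul] at h6
        exact h6
      have h7 : ∫ s in (-hc y)..(hc y), r • fderiv ℝ f (x + r • (s • v + (y : E))) v = F y := by
        rw [intervalIntegral.integral_eq_sub_of_hasDerivAt (fun s _ => h3 s)]
        refine Continuous.intervalIntegrable ?_ _ _
        exact continuous_const.smul ((hfc.comp (by fun_prop)).clm_apply continuous_const)
      rw [← intervalIntegral.integral_smul, h7]
      by_cases hy : y ∈ D
      · rw [indicator_of_mem hy]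
      · rw [indicator_of_notMem hy]
        have h8 : hc y = 0 := by
          apply hc_far
          rw [hD, mem_closedBall_zero_iff] at hy
          exact (not_le.1 hy).le
        simp only [hF, hb, ha, h8, neg_zero, zero_smul, sub_self]
    simp only [h2]
    rw [integral_indicator hDm]
  have hh : ∫ y in D, hc y = volume.real (closedBall (0 : E) 1) / 2 := by
    have h2 := chords hv hV (φ := fun _ : E => (1 : ℝ)) continuous_const
    have h3 : ∫ u in closedBall (0 : E) 1, (1 : ℝ) = volume.real (closedBall (0 : E) 1) := by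
      simp
    rw [h3] at h2
    have h4 : ∀ y : V, ∫ s in (-hc y)..(hc y), (1 : ℝ) = 2 * D.indicator hc y := by
      intro y
      rw [intervalIntegral.integral_const, smul_eq_mul, mul_one]
      by_cases hy : y ∈ D
      · rw [indicator_of_mem hy]; ring
      · rw [indicator_of_notMem hy]
        have h8 : hc y = 0 := by
          apply hc_far
          rw [hD, mem_closedBall_zero_iff] at hy
          exact (not_le.1 hy).le
        rw [h8]; ring
    simp only [h4] at h2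
    rw [integral_const_mul, integral_indicator hDm] at h2
    rw [h2]; ring
  have hy0 : ∫ y in D, y = 0 := by
    have h2 : ∫ y in D, y = -∫ y in D, y := by
      rw [← integral_neg, ← integral_indicator hDm, ← integral_indicator hDm,
        ← integral_neg_eq_self]
      congr 1
      funext y
      have h3 : -y ∈ D ↔ y ∈ D := by
        rw [hD, mem_closedBall_zero_iff, mem_closedBall_zero_iff, norm_neg]
      by_cases hy : y ∈ D
      · rw [indicator_of_mem (h3.2 hy), indicator_of_mem hy]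
      · rw [indicator_of_notMem (fun h => hy (h3.1 h)), indicator_of_notMem hy]
    have h4 : (2 : ℝ) • ∫ y in D, y = 0 := by
      rw [two_smul]
      nth_rewrite 1 [h2]
      exact neg_add_cancel _
    exact (smul_eq_zero.1 h4).resolve_left (by norm_num)
  -- pointwise bound
  have hpt : ∀ y ∈ D, ∀ z ∈ D, r ^ 2 * (2 * (l ^ 2 - L ^ 2) - 2 * (l ^ 2 - L ^ 2) * ⟪y, z⟫ +
      2 * (l ^ 2 + L ^ 2) * (hc y * hc z)) ≤ ⟪F y, F z⟫ := by
    intro y hy z hz
    rw [hD, mem_closedBall_zero_iff] at hy hz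
    have h2 := four_point hL hl hl0 (a y) (b y) (a z) (b z)
    have hn : ∀ (s t : ℝ), ‖(x + r • (s • v + (y : E))) - (x + r • (t • v + (z : E)))‖ ^ 2 =
        r ^ 2 * ((s - t) ^ 2 + ‖y‖ ^ 2 - 2 * ⟪y, z⟫ + ‖z‖ ^ 2) := by
      intro s t
      have h3 : (x + r • (s • v + (y : E))) - (x + r • (t • v + (z : E))) =
          r • ((s - t) • v + ((y - z : V) : E)) := by
        rw [Submodule.coe_sub]
        module
      rw [h3, norm_smul, mul_pow, Real.norm_eq_abs, sq_abs, norm_add_sq_real, inner_smul_left, hperp,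
        norm_smul, hv]
      have h4 : ‖((y - z : V) : E)‖ ^ 2 = ‖y‖ ^ 2 - 2 * ⟪y, z⟫ + ‖z‖ ^ 2 := by
        exact norm_sub_sq_real y z
      rw [h4, Real.norm_eq_abs, mul_one, sq_abs]
      simp only [mul_zero, add_zero]
      ring
    have e1 : ‖b y - a z‖ ^ 2 = r ^ 2 * ((hc y - -(hc z)) ^ 2 + ‖y‖ ^ 2 - 2 * ⟪y, z⟫ + ‖z‖ ^ 2) :=
      hn _ _
    have e2 : ‖a y - b z‖ ^ 2 = r ^ 2 * ((-(hc y) - hc z) ^ 2 + ‖y‖ ^ 2 - 2 * ⟪y, z⟫ + ‖z‖ ^ 2) :=
      hn _ _
    have e3 : ‖b y - b z‖ ^ 2 = r ^ 2 * ((hc y - hc z) ^ 2 + ‖y‖ ^ 2 - 2 * ⟪y, z⟫ + ‖z‖ ^ 2) :=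
      hn _ _
    have e4 : ‖a y - a z‖ ^ 2 =
        r ^ 2 * ((-(hc y) - -(hc z)) ^ 2 + ‖y‖ ^ 2 - 2 * ⟪y, z⟫ + ‖z‖ ^ 2) := hn _ _
    rw [e1, e2, e3, e4] at h2
    have e5 := hc_sq hy
    have e6 := hc_sq hz
    have e7 : (hc y - -(hc z)) ^ 2 + ‖y‖ ^ 2 - 2 * ⟪y, z⟫ + ‖z‖ ^ 2 =
        2 - 2 * ⟪y, z⟫ + 2 * (hc y * hc z) := by
      linear_combination e5 + e6
    have e8 : (-(hc y) - hc z) ^ 2 + ‖y‖ ^ 2 - 2 * ⟪y, z⟫ + ‖z‖ ^ 2 =
        2 - 2 * ⟪y, z⟫ + 2 * (hc y * hc z) := by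
      linear_combination e5 + e6
    have e9 : (hc y - hc z) ^ 2 + ‖y‖ ^ 2 - 2 * ⟪y, z⟫ + ‖z‖ ^ 2 =
        2 - 2 * ⟪y, z⟫ - 2 * (hc y * hc z) := by
      linear_combination e5 + e6
    have e10 : (-(hc y) - -(hc z)) ^ 2 + ‖y‖ ^ 2 - 2 * ⟪y, z⟫ + ‖z‖ ^ 2 =
        2 - 2 * ⟪y, z⟫ - 2 * (hc y * hc z) := by
      linear_combination e5 + e6
    rw [e7, e8, e9, e10] at h2
    nlinarith [h2]
  have ion : ∀ φ : V → ℝ, Continuous φ → IntegrableOn φ D := fun φ h =>
    h.continuousOn.integrableOn_compact hDc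
  have hone : ∀ c : ℝ, ∫ _z in D, c = volume.real D * c := fun c => by
    rw [setIntegral_const, smul_eq_mul]
  -- integrate
  set I : E := ∫ y in D, F y with hI
  set m : ℝ := volume.real D with hm
  set η : ℝ := ∫ y in D, hc y with hη
  have hin : ∀ y ∈ D, r ^ 2 * (2 * (l ^ 2 - L ^ 2) * m + 2 * (l ^ 2 + L ^ 2) * (hc y * η)) ≤
      ⟪F y, I⟫ := by
    intro y hy
    have h2 : ⟪F y, I⟫ = ∫ z in D, ⟪F y, F z⟫ := (integral_inner hFint (F y)).symm
    rw [h2]
    have hhc := hc_cont (V := V)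
    have h3 : ∫ z in D, r ^ 2 * (2 * (l ^ 2 - L ^ 2) - 2 * (l ^ 2 - L ^ 2) * ⟪y, z⟫ +
        2 * (l ^ 2 + L ^ 2) * (hc y * hc z)) ≤ ∫ z in D, ⟪F y, F z⟫ := by
      refine setIntegral_mono_on (ion _ (by fun_prop)) (ion _ (continuous_const.inner hFc)) hDm
        (fun z hz => hpt y hy z hz)
    refine le_trans (le_of_eq ?_) h3
    have hi1 : IntegrableOn (fun z : V => (⟪y, z⟫ : ℝ)) D :=
      ion _ (continuous_const.inner continuous_id)
    have hid : IntegrableOn (fun z : V => z) D :=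
      continuous_id.continuousOn.integrableOn_compact hDc
    have h4 : ∫ z in D, (⟪y, z⟫ : ℝ) = 0 := by
      rw [integral_inner (𝕜 := ℝ) (f := fun z : V => z) hid y, hy0, inner_zero_right]
    obtain ⟨a₁, ha₁⟩ : ∃ a₁ : ℝ, a₁ = r ^ 2 * (2 * (l ^ 2 - L ^ 2)) := ⟨_, rfl⟩
    obtain ⟨a₂, ha₂⟩ : ∃ a₂ : ℝ, a₂ = r ^ 2 * (2 * (l ^ 2 + L ^ 2)) * hc y := ⟨_, rfl⟩
    have h5 : ∀ z : V, r ^ 2 * (2 * (l ^ 2 - L ^ 2) - 2 * (l ^ 2 - L ^ 2) * ⟪y, z⟫ +
        2 * (l ^ 2 + L ^ 2) * (hc y * hc z)) = a₁ - a₁ * ⟪y, z⟫ + a₂ * hc z := by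
      intro z
      rw [ha₁, ha₂]; ring
    simp only [h5]
    have i3 : IntegrableOn (fun z : V => a₁ * (⟪y, z⟫ : ℝ)) D := hi1.const_mul _
    have i0 : IntegrableOn (fun _ : V => a₁) D := ion _ continuous_const
    have i1 : IntegrableOn (fun z : V => a₁ - a₁ * (⟪y, z⟫ : ℝ)) D := i0.sub i3
    have i2 : IntegrableOn (fun z : V => a₂ * hc z) D := hhint.const_mul _
    rw [integral_add i1 i2, integral_sub i0 i3, integral_const_mul, h4,
      integral_const_mul, hone, ha₁, ha₂]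
    ring
  have hII : r ^ 2 * (2 * (l ^ 2 - L ^ 2) * m ^ 2 + 2 * (l ^ 2 + L ^ 2) * η ^ 2) ≤ ⟪I, I⟫ := by
    have h2 : ⟪I, I⟫ = ∫ y in D, ⟪F y, I⟫ := by
      have h3 : ∫ y in D, ⟪F y, I⟫ = ∫ y in D, ⟪I, F y⟫ := by
        congr 1
        funext y
        exact real_inner_comm _ _
      rw [h3, integral_inner hFint I]
    rw [h2]
    have hhc := hc_cont (V := V)
    have h3 : ∫ y in D, r ^ 2 * (2 * (l ^ 2 - L ^ 2) * m + 2 * (l ^ 2 + L ^ 2) * (hc y * η)) ≤
        ∫ y in D, ⟪F y, I⟫ :=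
      setIntegral_mono_on (ion _ (by fun_prop)) (ion _ (hFc.inner continuous_const)) hDm hin
    refine le_trans (le_of_eq ?_) h3
    obtain ⟨a₁, ha₁⟩ : ∃ a₁ : ℝ, a₁ = r ^ 2 * (2 * (l ^ 2 - L ^ 2)) * m := ⟨_, rfl⟩
    obtain ⟨a₂, ha₂⟩ : ∃ a₂ : ℝ, a₂ = r ^ 2 * (2 * (l ^ 2 + L ^ 2)) * η := ⟨_, rfl⟩
    have h5 : ∀ y : V, r ^ 2 * (2 * (l ^ 2 - L ^ 2) * m + 2 * (l ^ 2 + L ^ 2) * (hc y * η)) =
        a₁ + a₂ * hc y := by
      intro y
      rw [ha₁, ha₂]; ring
    simp only [h5]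
    rw [integral_add (ion _ continuous_const) (hhint.const_mul _), integral_const_mul, hone,
      ha₁, ha₂]
    ring
  intro h0
  rw [h0, smul_zero] at h1
  rw [← h1, inner_zero_left, hh] at hII
  have h2 : 0 < r ^ 2 := by positivity
  nlinarith

end

end Pool.Agent.H83.BI
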