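import Pool.Agent.H83.BI.Distort

/-! Diffeomorphisms of small distortion are isotopic to the identity. -/

set_option autoImplicit false
set_option linter.unusedSectionVars false

open Set Filter Topology Metric Function MeasureTheory
open scoped ContDiff RealInnerProductSpace NNReal

namespace Pool.Agent.H83.BI

section

variable {E : Type} [NormedAddCommGroup E] [InnerProductSpace ℝ E] [FiniteDimensional ℝ E]
  [MeasurableSpace E] [BorelSpace E]

theorem distort_triv {n : ℕ} (hn : 1 ≤ n) (hE : Module.finrank ℝ E = n + 1) {f : E → E}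
    (hf : IsDiffeo f) (hfR : ∃ R : ℝ, ∀ x, R ≤ ‖x‖ → f x = x) {K₁ K₂ : ℝ≥0}
    (h1 : LipschitzWith K₁ f) (h2 : AntilipschitzWith K₂ f)
    (hK : 4 * (((K₁ : ℝ) * K₂) ^ 2 - 1) *
        (volume.real (closedBall (0 : EuclideanSpace ℝ (Fin n)) 1)) ^ 2 <
      (((K₁ : ℝ) * K₂) ^ 2 + 1) *
        (volume.real (closedBall (0 : EuclideanSpace ℝ (Fin (n + 1))) 1)) ^ 2) : Triv f := by
  have hnt : Nontrivial E := Module.nontrivial_of_finrank_pos (R := ℝ) (by omega)
  have hK2 : (0 : ℝ) < K₂ := by
    obtain ⟨x, y, hxy⟩ := exists_pair_ne E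
    have h3 := h2.le_mul_dist x y
    have h4 := dist_pos.2 hxy
    by_contra h5
    have h6 : (K₂ : ℝ) = 0 := le_antisymm (not_lt.1 h5) K₂.2
    rw [h6, zero_mul] at h3
    linarith
  have hL : ∀ x y, ‖f x - f y‖ ≤ K₁ * ‖x - y‖ := by
    intro x y
    have := h1.dist_le_mul x y
    rwa [dist_eq_norm, dist_eq_norm] at this
  have hl : ∀ x y, (K₂ : ℝ)⁻¹ * ‖x - y‖ ≤ ‖f x - f y‖ := by
    intro x y
    have := h2.le_mul_dist x y
    rw [dist_eq_norm, dist_eq_norm] at this
    rwa [inv_mul_le_iff₀ hK2]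
  -- volumes
  have hvol1 : volume.real (closedBall (0 : E) 1) =
      volume.real (closedBall (0 : EuclideanSpace ℝ (Fin (n + 1))) 1) := by
    have e1 := InnerProductSpace.volume_closedBall (0 : E) 1
    have e2 := EuclideanSpace.volume_closedBall (Fin (n + 1)) 0 1
    rw [hE] at e1
    simp only [Fintype.card_fin] at e2
    rw [Measure.real, Measure.real, e1, e2]
  have hB0 : 0 < volume.real (closedBall (0 : E) 1) := by
    rw [Measure.real]
    exact ENNReal.toReal_pos (measure_closedBall_pos _ _ one_pos).ne'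
      (isCompact_closedBall _ _).measure_lt_top.ne
  have key : ∀ v : E, ‖v‖ = 1 → ∀ (x : E) (r : ℝ), 0 < r →
      ∫ u in closedBall (0 : E) 1, fderiv ℝ f (x + r • u) v ≠ 0 := by
    intro v hv x r hr
    obtain ⟨V, hV⟩ : ∃ V : Submodule ℝ E, V = (ℝ ∙ v)ᗮ := ⟨_, rfl⟩
    have hv0 : v ≠ 0 := by
      rintro rfl
      simp at hv
    have hVn : Module.finrank ℝ V = n := by
      have h3 := Submodule.finrank_add_finrank_orthogonal (ℝ ∙ v)
      rw [finrank_span_singleton hv0, ← hV, hE] at h3
      omega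
    have hntV : Nontrivial V := Module.nontrivial_of_finrank_pos (R := ℝ) (by omega)
    have hne : Nonempty (Fin n) := ⟨⟨0, by omega⟩⟩
    have hvol2 : volume.real (closedBall (0 : V) 1) =
        volume.real (closedBall (0 : EuclideanSpace ℝ (Fin n)) 1) := by
      have e1 := InnerProductSpace.volume_closedBall (0 : V) 1
      have e2 := EuclideanSpace.volume_closedBall (Fin n) 0 1
      rw [hVn] at e1
      simp only [Fintype.card_fin] at e2
      rw [Measure.real, Measure.real, e1, e2]
    refine mean_ne_zero hf.1 hL hl (by positivity) hv hV ?_ x hr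
    rw [hvol1, hvol2]
    obtain ⟨a, ha⟩ : ∃ a : ℝ, a = volume.real (closedBall (0 : EuclideanSpace ℝ (Fin n)) 1) :=
      ⟨_, rfl⟩
    obtain ⟨b, hb⟩ : ∃ b : ℝ, b = volume.real (closedBall (0 : EuclideanSpace ℝ (Fin (n + 1))) 1) :=
      ⟨_, rfl⟩
    rw [← ha, ← hb] at hK ⊢
    have h3 : ((K₁ : ℝ) ^ 2 - ((K₂ : ℝ)⁻¹) ^ 2) * a ^ 2 =
        (4 * (((K₁ : ℝ) * K₂) ^ 2 - 1) * a ^ 2) * (1 / (4 * (K₂ : ℝ) ^ 2)) := by
      field_simp
    have h4 : ((K₁ : ℝ) ^ 2 + ((K₂ : ℝ)⁻¹) ^ 2) * (b / 2) ^ 2 =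
        ((((K₁ : ℝ) * K₂) ^ 2 + 1) * b ^ 2) * (1 / (4 * (K₂ : ℝ) ^ 2)) := by
      field_simp
      ring
    rw [h3, h4]
    exact mul_lt_mul_of_pos_right hK (by positivity)
  -- the probability measure
  set B : Set E := closedBall (0 : E) 1 with hB
  set μ : Measure E := (volume B)⁻¹ • volume.restrict B with hμ
  have hprob : IsProbabilityMeasure μ := by
    constructor
    rw [hμ, Measure.smul_apply, Measure.restrict_apply_univ, smul_eq_mul]
    exact ENNReal.inv_mul_cancel (measure_closedBall_pos _ _ one_pos).ne'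
      (isCompact_closedBall _ _).measure_lt_top.ne
  have hμB : μ Bᶜ = 0 := by
    rw [hμ, Measure.smul_apply, Measure.restrict_apply isClosed_closedBall.measurableSet.compl,
      compl_inter_self, measure_empty, smul_zero]
  have hat : ∀ x, μ {x} = 0 := by
    intro x
    rw [hμ, Measure.smul_apply, Measure.restrict_apply (measurableSet_singleton x)]
    have : volume ({x} ∩ B) = 0 := measure_mono_null inter_subset_left (measure_singleton x)
    rw [this, smul_zero]
  refine mean_criterion (ContinuousLinearMap.id ℝ E) ?_ hf hfR μ (isCompact_closedBall (0 : E) 1)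
    hμB hat ?_
  · have h3 : LinearMap.ker ((ContinuousLinearMap.id ℝ E : E →L[ℝ] E) : E →ₗ[ℝ] E) = ⊥ := by
      rw [LinearMap.ker_eq_bot]
      exact injective_id
    rw [h3, finrank_bot]
    norm_num
  · intro x r hr
    have hc : Continuous (fun u : E => fderiv ℝ f (x + r • u)) :=
      (hf.1.continuous_fderiv (by simp)).comp (by fun_prop)
    set T : E →L[ℝ] E := ∫ u, fderiv ℝ f (x + r • u) ∂μ with hT
    have hTv : ∀ v, T v = ∫ u, fderiv ℝ f (x + r • u) v ∂μ := fun v =>
      ContinuousLinearMap.integral_apply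
        (integrable_cont μ (isCompact_closedBall (0 : E) 1) hμB hc) v
    have h3 : (fun v => ∫ u, (ContinuousLinearMap.id ℝ E) (fderiv ℝ f (x + r • u) v) ∂μ) =
        fun v => T v := by
      funext v
      rw [hTv]
      rfl
    rw [h3]
    have hinj : Injective T := by
      rw [injective_iff_map_eq_zero]
      intro v hv
      by_contra hv0
      have h4 : ‖(‖v‖⁻¹ • v)‖ = 1 := by
        rw [norm_smul, norm_inv, norm_norm, inv_mul_cancel₀ (norm_ne_zero_iff.2 hv0)]
      have h5 : T (‖v‖⁻¹ • v) = 0 := by rw [map_smul, hv, smul_zero]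
      rw [hTv, hμ, integral_smul_measure] at h5
      rcases smul_eq_zero.1 h5 with h6 | h6
      · rw [ENNReal.toReal_inv, inv_eq_zero] at h6
        exact hB0.ne' h6
      · exact key _ h4 x r hr h6
    exact (LinearMap.injective_iff_surjective (f := (T : E →ₗ[ℝ] E))).1 hinj

end

end Pool.Agent.H83.BI
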