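import Pool.Agent.H83.BI.Smale

/-! Two coordinates may be forgotten. -/

set_option autoImplicit false
set_option linter.unusedSectionVars false

open Set Filter Topology Metric Function
open scoped ContDiff

namespace Pool.Agent.H83.BI

section

variable {E E' F : Type} [NormedAddCommGroup E] [NormedSpace ℝ E] [FiniteDimensional ℝ E]
  [NormedAddCommGroup E'] [NormedSpace ℝ E'] [FiniteDimensional ℝ E']
  [NormedAddCommGroup F] [NormedSpace ℝ F] [FiniteDimensional ℝ F]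

theorem IsDiffeo.conj (e : E ≃L[ℝ] E') {h : E → E} (hd : IsDiffeo h) :
    IsDiffeo (fun y => e (h (e.symm y))) := by
  obtain ⟨hs, k, ks, hl, hr⟩ := hd
  refine ⟨e.contDiff.comp (hs.comp e.symm.contDiff), fun y => e (k (e.symm y)),
    e.contDiff.comp (ks.comp e.symm.contDiff), fun y => ?_, fun y => ?_⟩
  · simp [hl _]
  · simp [hr _]

theorem far_conj (e : E ≃L[ℝ] E') (R' : ℝ) : ∃ R : ℝ, ∀ x, R ≤ ‖x‖ → R' ≤ ‖e x‖ := by
  refine ⟨‖(e.symm : E' →L[ℝ] E)‖ * |R'| + 1, fun x hx => ?_⟩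
  by_contra h
  push Not at h
  have h1 : ‖x‖ ≤ ‖(e.symm : E' →L[ℝ] E)‖ * ‖e x‖ := by
    have := (e.symm : E' →L[ℝ] E).le_opNorm (e x)
    simpa using this
  have h2 : ‖(e.symm : E' →L[ℝ] E)‖ * ‖e x‖ ≤ ‖(e.symm : E' →L[ℝ] E)‖ * |R'| :=
    mul_le_mul_of_nonneg_left (h.le.trans (le_abs_self R')) (norm_nonneg _)
  linarith

theorem Triv.conj (e : E ≃L[ℝ] E') {h : E → E} (ht : Triv (fun y => e (h (e.symm y)))) :
    Triv h := by
  obtain ⟨Φ, R, h1, h2, h3, h4, h5⟩ := ht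
  obtain ⟨R', hR'⟩ := far_conj e R
  refine ⟨fun p => e.symm (Φ (p.1, e p.2)), R', ?_, ?_, ?_, ?_, ?_⟩
  · exact e.symm.contDiff.comp (h1.comp (contDiff_fst.prodMk (e.contDiff.comp contDiff_snd)))
  · intro t x
    have e1 : HasFDerivAt (fun y => Φ (t, y)) (fderiv ℝ (fun y => Φ (t, y)) (e x)) (e x) :=
      ((slice h1 t).differentiable (by simp) _).hasFDerivAt
    have e2 : HasFDerivAt (fun y => e.symm (Φ (t, e y)))
        ((e.symm : E' →L[ℝ] E).comp ((fderiv ℝ (fun y => Φ (t, y)) (e x)).comp (e : E →L[ℝ] E'))) x :=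
      (e.symm : E' →L[ℝ] E).hasFDerivAt.comp x (e1.comp x (e : E →L[ℝ] E').hasFDerivAt)
    show Injective (fderiv ℝ (fun y => e.symm (Φ (t, e y))) x)
    rw [e2.fderiv]
    intro v w hvw
    exact e.injective (h2 t (e x) (e.symm.injective hvw))
  · intro t x hx
    show e.symm (Φ (t, e x)) = x
    rw [h3 t _ (hR' x hx)]
    simp
  · intro x
    show e.symm (Φ (0, e x)) = x
    rw [h4]
    simp
  · intro x
    show e.symm (Φ (1, e x)) = h x
    rw [h5]
    simp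

/-- maps preserving the fibres of a linear map with fibres of dimension at most `2` -/
theorem triv_of_fiber_two (π : E →L[ℝ] F)
    (hπ : Module.finrank ℝ (LinearMap.ker (π : E →ₗ[ℝ] F)) ≤ 2)
    (h : E → E) (hd : IsDiffeo h) (hR : ∃ R : ℝ, ∀ x, R ≤ ‖x‖ → h x = x)
    (hp : ∀ x, π (h x) = π x) : Triv h := by
  rcases Nat.lt_or_ge (Module.finrank ℝ (LinearMap.ker (π : E →ₗ[ℝ] F))) 2 with h1 | h1
  · exact triv_of_fiber_one π (by omega) h hd hR hp
  have h2 : Module.finrank ℝ (LinearMap.ker (π : E →ₗ[ℝ] F)) = 2 := le_antisymm hπ h1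
  obtain ⟨K, hK⟩ : ∃ K : Submodule ℝ E, K = LinearMap.ker (π : E →ₗ[ℝ] F) := ⟨_, rfl⟩
  rw [← hK] at h2
  obtain ⟨W, hW⟩ := Submodule.exists_isCompl K
  let e₁ : (W × K) ≃ₗ[ℝ] E := Submodule.prodEquivOfIsCompl W K hW.symm
  let e₂ : K ≃ₗ[ℝ] (ℝ × ℝ) := LinearEquiv.ofFinrankEq _ _ (by
    rw [h2, Module.finrank_prod, Module.finrank_self])
  let e₃ : E ≃ₗ[ℝ] W × (ℝ × ℝ) := e₁.symm.trans ((LinearEquiv.refl ℝ W).prodCongr e₂)
  let e : E ≃L[ℝ] W × (ℝ × ℝ) := e₃.toContinuousLinearEquiv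
  have he : ∀ x y : E, x - y ∈ K → (e x).1 = (e y).1 := by
    intro x y hxy
    have h3 : (e (x - y)).1 = 0 := by
      show (e₁.symm (x - y)).1 = 0
      rw [Submodule.prodEquivOfIsCompl_symm_apply_fst_eq_zero]
      exact hxy
    rw [map_sub, Prod.fst_sub, sub_eq_zero] at h3
    exact h3
  refine Triv.conj e (smale (hd.conj e) ?_ ?_)
  · obtain ⟨R, hR⟩ := hR
    obtain ⟨R', hR'⟩ := far_conj e.symm R
    refine ⟨R', fun y hy => ?_⟩
    rw [hR _ (hR' y hy)]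
    simp
  · intro z
    have h3 : (e (h (e.symm z))).1 = (e (e.symm z)).1 := by
      apply he
      rw [hK, LinearMap.mem_ker]
      show π (h (e.symm z) - e.symm z) = 0
      rw [map_sub, hp, sub_self]
    rw [h3]
    simp

/-- **`n - 2` coordinates suffice**: let `f` be a compactly supported diffeomorphism of `E` and `π` a
linear map with kernel of dimension at most two. If `π` and `π ∘ f` are joined by a path of submersions
equal to `π` off a ball, `f` is isotopic to the identity. -/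
theorem main (π : E →L[ℝ] F) (hπ : Module.finrank ℝ (LinearMap.ker (π : E →ₗ[ℝ] F)) ≤ 2)
    {f : E → E} (hf : IsDiffeo f) {Q : ℝ × E → F} {R : ℝ} (hQ : ContDiff ℝ ∞ Q)
    (hs : ∀ t ∈ Icc (0 : ℝ) 1, ∀ x, Surjective (fderiv ℝ (fun y => Q (t, y)) x))
    (hR : ∀ t ∈ Icc (0 : ℝ) 1, ∀ x, R ≤ ‖x‖ → Q (t, x) = π x) (h0 : ∀ x, Q (0, x) = π x)
    (h1 : ∀ x, Q (1, x) = π (f x)) (hfR : ∃ R : ℝ, ∀ x, R ≤ ‖x‖ → f x = x) : Triv f :=
  reduce π (triv_of_fiber_two π hπ) hf hQ hs hR h0 h1 hfR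

end

end Pool.Agent.H83.BI
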