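import Pool.Agent.H83.BI.Main

/-! Averages of the derivative. -/

set_option autoImplicit false
set_option linter.unusedSectionVars false

open Set Filter Topology Metric Function MeasureTheory
open scoped ContDiff

namespace Pool.Agent.H83.BI

section

variable {U : Type} [NormedAddCommGroup U] [NormedSpace ℝ U] [FiniteDimensional ℝ U]
  [MeasurableSpace U] [BorelSpace U]

theorem integrable_cont {G : Type} [NormedAddCommGroup G] (μ : Measure U)
    [IsFiniteMeasure μ] {K : Set U} (hK : IsCompact K) (hμ : μ Kᶜ = 0) {h : U → G}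
    (hh : Continuous h) : Integrable h μ := by
  have h1 : μ.restrict K = μ := Measure.restrict_eq_self_of_ae_mem (by
    rw [ae_iff]; exact hμ)
  rw [← h1]
  exact hh.continuousOn.integrableOn_compact hK

theorem hasFDerivAt_param_measure {V : Type} [NormedAddCommGroup V] [NormedSpace ℝ V]
    [FiniteDimensional ℝ V] (μ : Measure U) [IsFiniteMeasure μ] {K : Set U} (hK : IsCompact K)
    (hμ : μ Kᶜ = 0) {G : Type} [NormedAddCommGroup G] [NormedSpace ℝ G]
    {F : V → U → G} {D : V → U → (V →L[ℝ] G)}
    (hF : Continuous (fun p : V × U => F p.1 p.2)) (hD : Continuous (fun p : V × U => D p.1 p.2))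
    (hd : ∀ x u, HasFDerivAt (fun x => F x u) (D x u) x) (x : V) :
    HasFDerivAt (fun x => ∫ u, F x u ∂μ) (∫ u, D x u ∂μ) x := by
  have hproper : ProperSpace V := FiniteDimensional.proper_real V
  obtain ⟨C, hC⟩ := ((isCompact_closedBall x 1).prod hK).exists_bound_of_continuousOn
    hD.continuousOn
  refine hasFDerivAt_integral_of_dominated_of_fderiv_le
    (s := Metric.closedBall x 1) (bound := fun _ => C)
    (Metric.closedBall_mem_nhds x one_pos) ?_ ?_ ?_ ?_ ?_ ?_
  · refine Eventually.of_forall fun y => ?_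
    exact (hF.comp (continuous_const.prodMk continuous_id)).aestronglyMeasurable
  · exact integrable_cont μ hK hμ (hF.comp (continuous_const.prodMk continuous_id))
  · exact (hD.comp (continuous_const.prodMk continuous_id)).aestronglyMeasurable
  · have h1 : ∀ᵐ u ∂μ, u ∈ K := by
      rw [ae_iff]; exact hμ
    filter_upwards [h1] with u hu y hy
    exact hC (y, u) ⟨hy, hu⟩
  · exact integrable_const C
  · exact Eventually.of_forall fun t y _ => hd y t

theorem contDiff_param_measure_aux {V : Type} [NormedAddCommGroup V] [NormedSpace ℝ V]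
    [FiniteDimensional ℝ V] (μ : Measure U) [IsFiniteMeasure μ] {K : Set U} (hK : IsCompact K)
    (hμ : μ Kᶜ = 0) (m : ℕ) : ∀ (G : Type) [NormedAddCommGroup G]
    [NormedSpace ℝ G] [CompleteSpace G] (F : V → U → G),
    ContDiff ℝ m (fun p : V × U => F p.1 p.2) → ContDiff ℝ m (fun x => ∫ u, F x u ∂μ) := by
  have hproper : ProperSpace V := FiniteDimensional.proper_real V
  have hproper' : ProperSpace U := FiniteDimensional.proper_real U
  induction m with
  | zero =>
    intro G _ _ _ F hF
    have h0 : Continuous (Function.uncurry F) := hF.continuous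
    have h1 : μ.restrict K = μ := Measure.restrict_eq_self_of_ae_mem (by
      rw [ae_iff]; exact hμ)
    have h2 := continuous_parametric_integral_of_continuous (μ := μ) h0 hK
    rw [h1] at h2
    exact contDiff_zero.mpr h2
  | succ m ih =>
    intro G _ _ _ F hF
    have hF' : ContDiff ℝ ((m : WithTop ℕ∞) + 1) (fun p : V × U => F p.1 p.2) := by
      exact_mod_cast hF
    set D : V → U → (V →L[ℝ] G) := fun x t =>
      (fderiv ℝ (fun p : V × U => F p.1 p.2) (x, t)).comp (ContinuousLinearMap.inl ℝ V U) with hD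
    have hDc : ContDiff ℝ m (fun p : V × U => D p.1 p.2) := by
      have h1 : ContDiff ℝ m (fderiv ℝ (fun p : V × U => F p.1 p.2)) :=
        hF'.fderiv_right le_rfl
      exact h1.clm_comp contDiff_const
    have hder : ∀ x t, HasFDerivAt (fun x => F x t) (D x t) x := by
      intro x t
      have h1 : HasFDerivAt (fun p : V × U => F p.1 p.2)
          (fderiv ℝ (fun p : V × U => F p.1 p.2) (x, t)) (x, t) :=
        (hF'.differentiable (by simp) (x, t)).hasFDerivAt
      have h2 : HasFDerivAt (𝕜 := ℝ) (fun e : V => (e, t)) (ContinuousLinearMap.inl ℝ V U) x :=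
        hasFDerivAt_prodMk_left x t
      exact HasFDerivAt.comp (g := fun p : V × U => F p.1 p.2) (f := fun e : V => (e, t)) x h1 h2
    have key : ContDiff ℝ ((m : WithTop ℕ∞) + 1) (fun x => ∫ u, F x u ∂μ) := by
      rw [contDiff_succ_iff_hasFDerivAt]
      exact ⟨fun x => ∫ u, D x u ∂μ, ih (V →L[ℝ] G) D hDc, fun x =>
        hasFDerivAt_param_measure μ hK hμ hF'.continuous hDc.continuous hder x⟩
    exact_mod_cast key

theorem contDiff_param_measure {V : Type} [NormedAddCommGroup V] [NormedSpace ℝ V]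
    [FiniteDimensional ℝ V] (μ : Measure U) [IsFiniteMeasure μ] {K : Set U} (hK : IsCompact K)
    (hμ : μ Kᶜ = 0) {G : Type} [NormedAddCommGroup G]
    [NormedSpace ℝ G] [CompleteSpace G] {F : V → U → G}
    (h : ContDiff ℝ ∞ (fun p : V × U => F p.1 p.2)) : ContDiff ℝ ∞ (fun x => ∫ u, F x u ∂μ) := by
  rw [contDiff_infty]
  intro m
  exact contDiff_param_measure_aux μ hK hμ m G F (h.of_le (by exact_mod_cast le_top))

/-- a compactly supported measure without atoms gives small mass to small balls -/
theorem small_balls (μ : Measure U) [IsFiniteMeasure μ] {K : Set U} (hK : IsCompact K)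
    (hμ : μ Kᶜ = 0) (hat : ∀ x, μ {x} = 0) {ε : ℝ} (hε : 0 < ε) :
    ∃ δ : ℝ, 0 < δ ∧ ∀ y, μ.real (closedBall y δ) ≤ ε := by
  have hproper' : ProperSpace U := FiniteDimensional.proper_real U
  have h1 : ∀ y : U, ∃ δ : ℝ, 0 < δ ∧ μ.real (closedBall y (2 * δ)) ≤ ε := by
    intro y
    have h2 : Tendsto (fun n : ℕ => μ (closedBall y (2 * (1 / ((n : ℝ) + 1))))) atTop
        (𝓝 (μ (⋂ n : ℕ, closedBall y (2 * (1 / ((n : ℝ) + 1)))))) := by
      refine tendsto_measure_iInter_atTop (fun n => isClosed_closedBall.measurableSet.nullMeasurableSet)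
        ?_ ⟨0, measure_ne_top _ _⟩
      intro n m hnm
      refine closedBall_subset_closedBall ?_
      have : (1 : ℝ) / ((m : ℝ) + 1) ≤ 1 / ((n : ℝ) + 1) := by
        apply one_div_le_one_div_of_le (by positivity)
        have : (n : ℝ) ≤ m := by exact_mod_cast hnm
        linarith
      linarith
    have h3 : (⋂ n : ℕ, closedBall y (2 * (1 / ((n : ℝ) + 1)))) = {y} := by
      apply Subset.antisymm
      · intro z hz
        rw [mem_iInter] at hz
        have h4 : Tendsto (fun n : ℕ => 2 * (1 / ((n : ℝ) + 1))) atTop (𝓝 (2 * 0)) :=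
          tendsto_one_div_add_atTop_nhds_zero_nat.const_mul 2
        rw [mul_zero] at h4
        have h5 := ge_of_tendsto' h4 (fun n => mem_closedBall.1 (hz n))
        rw [mem_singleton_iff]
        exact dist_le_zero.1 h5
      · intro z hz
        rw [mem_singleton_iff] at hz
        rw [hz, mem_iInter]
        intro n
        exact mem_closedBall_self (by positivity)
    rw [h3, hat y] at h2
    have h6 : ∀ᶠ n : ℕ in atTop, μ (closedBall y (2 * (1 / ((n : ℝ) + 1)))) < ENNReal.ofReal ε :=
      h2.eventually (gt_mem_nhds (ENNReal.ofReal_pos.2 hε))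
    obtain ⟨n, hn⟩ := h6.exists
    refine ⟨1 / ((n : ℝ) + 1), by positivity, ?_⟩
    exact ENNReal.toReal_le_of_le_ofReal hε.le hn.le
  choose δ hδ hδ' using h1
  obtain ⟨s, -, hs⟩ := hK.elim_nhds_subcover (fun y => ball y (δ y)) (fun y _ => ball_mem_nhds y (hδ y))
  obtain ⟨d, hd, hds⟩ : ∃ d : ℝ, 0 < d ∧ ∀ y ∈ s, 2 * d ≤ δ y := by
    rcases s.eq_empty_or_nonempty with h | h
    · exact ⟨1, one_pos, by rw [h]; simp⟩
    · obtain ⟨y₀, -, hy₀⟩ := s.exists_min_image δ h
      exact ⟨δ y₀ / 2, by have := hδ y₀; linarith, fun y hy => by have := hy₀ y hy; linarith⟩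
  refine ⟨d, hd, fun y => ?_⟩
  by_cases hne : (closedBall y d ∩ K).Nonempty
  · obtain ⟨k, hk1, hk2⟩ := hne
    obtain ⟨z, hz, hkz⟩ := mem_iUnion₂.1 (hs hk2)
    refine le_trans (measureReal_mono (closedBall_subset_closedBall' (x := y) (y := z)
      (ε₁ := d) (ε₂ := 2 * δ z) ?_)) (hδ' z)
    have h2 : dist y z ≤ dist k y + dist k z := dist_triangle_left y z k
    have h3 := mem_closedBall.1 hk1
    have h4 := mem_ball.1 hkz
    have h5 := hds z hz
    linarith
  · have h2 : closedBall y d ⊆ Kᶜ := by
      intro z hz hzK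
      exact hne ⟨z, hz, hzK⟩
    have h3 : μ (closedBall y d) = 0 := measure_mono_null h2 hμ
    rw [Measure.real, h3]
    simpa using hε.le

end

section

variable {E F : Type} [NormedAddCommGroup E] [NormedSpace ℝ E] [FiniteDimensional ℝ E]
  [NormedAddCommGroup F] [NormedSpace ℝ F] [FiniteDimensional ℝ F]
  [MeasurableSpace E] [BorelSpace E]

theorem mean_criterion (π : E →L[ℝ] F)
    (hπ : Module.finrank ℝ (LinearMap.ker (π : E →ₗ[ℝ] F)) ≤ 2)
    {f : E → E} (hf : IsDiffeo f) (hfR : ∃ R : ℝ, ∀ x, R ≤ ‖x‖ → f x = x)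
    (μ : Measure E) [IsProbabilityMeasure μ] {K : Set E} (hK : IsCompact K) (hμ : μ Kᶜ = 0)
    (hat : ∀ x, μ {x} = 0)
    (hmean : ∀ (x : E) (r : ℝ), 0 < r →
      Surjective (fun v => ∫ u, π (fderiv ℝ f (x + r • u) v) ∂μ)) : Triv f := by
  obtain ⟨R₀, hR₀⟩ := hfR
  obtain ⟨R, hR, hRR⟩ : ∃ R : ℝ, 0 < R ∧ R₀ < R :=
    ⟨|R₀| + 1, by positivity, by linarith [le_abs_self R₀]⟩
  have hfs := hf.1
  have hfd : ∀ x, HasFDerivAt f (fderiv ℝ f x) x := fun x =>
    (hfs.differentiable (by simp) x).hasFDerivAt
  set g : E → E := fun x => f x - x with hg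
  have hgs : ContDiff ℝ ∞ g := hfs.sub contDiff_id
  set A : E → (E →L[ℝ] E) := fun x => fderiv ℝ f x - ContinuousLinearMap.id ℝ E with hA
  have hgd : ∀ x, HasFDerivAt g (A x) x := fun x => (hfd x).sub (hasFDerivAt_id x)
  have hAc : Continuous A := (hfs.continuous_fderiv (by simp)).sub continuous_const
  have hg0 : ∀ x, R₀ ≤ ‖x‖ → g x = 0 := by
    intro x hx
    simp only [hg, hR₀ x hx, sub_self]
  have hA0 : ∀ x, R ≤ ‖x‖ → A x = 0 := by
    intro x hx
    have h1 : g =ᶠ[𝓝 x] fun _ => 0 := by
      filter_upwards [(isOpen_lt continuous_const continuous_norm).mem_nhds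
        (lt_of_lt_of_le hRR hx)] with y hy
      exact hg0 y (le_of_lt hy)
    exact ((hgd x).congr_of_eventuallyEq h1.symm).unique (hasFDerivAt_const (0 : E) x)
  obtain ⟨M, hM⟩ : ∃ M : ℝ, ∀ x, ‖A x‖ ≤ M := by
    obtain ⟨C, hC⟩ := (isCompact_closedBall (0 : E) R).exists_bound_of_continuousOn
      hAc.continuousOn
    refine ⟨max C 0, fun x => ?_⟩
    by_cases hx : R ≤ ‖x‖
    · rw [hA0 x hx, norm_zero]; exact le_max_right _ _
    · exact (hC x (mem_closedBall_zero_iff.2 (not_le.1 hx).le)).trans (le_max_left _ _)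
  have hM0 : 0 ≤ M := (norm_nonneg _).trans (hM 0)
  -- the mean of the derivative of `g`
  set T : ℝ → E → (E →L[ℝ] E) := fun r x => ∫ u, A (x + r • u) ∂μ with hT
  set H : ℝ × E → E := fun p => ∫ u, g (p.2 + p.1 • u) ∂μ with hH
  have hHs : ContDiff ℝ ∞ H := by
    refine contDiff_param_measure μ hK hμ (F := fun (p : ℝ × E) u => g (p.2 + p.1 • u)) ?_
    exact hgs.comp ((contDiff_snd.comp contDiff_fst).add
      ((contDiff_fst.comp contDiff_fst).smul contDiff_snd))
  have hHd : ∀ r x, HasFDerivAt (fun y => H (r, y)) (T r x) x := by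
    intro r x
    refine hasFDerivAt_param_measure μ hK hμ (F := fun y u => g (y + r • u))
      (D := fun y u => A (y + r • u)) ?_ ?_ ?_ x
    · exact hgs.continuous.comp (by fun_prop)
    · exact hAc.comp (by fun_prop)
    · intro x u
      have h1 : HasFDerivAt (fun y : E => y + r • u) (ContinuousLinearMap.id ℝ E) x :=
        (hasFDerivAt_id x).add_const _
      have h2 := (hgd (x + r • u)).comp x h1
      rw [ContinuousLinearMap.comp_id] at h2
      exact h2
  have hH0 : ∀ x, H (0, x) = g x := by
    intro x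
    simp only [hH, zero_smul, add_zero, integral_const, probReal_univ, one_smul]
  have hTa : ∀ r x v, π (v + T r x v) = ∫ u, π (fderiv ℝ f (x + r • u) v) ∂μ := by
    intro r x v
    have hc1 : Continuous (fun u => A (x + r • u)) := hAc.comp (by fun_prop)
    have h1 : T r x v = ∫ u, A (x + r • u) v ∂μ :=
      ContinuousLinearMap.integral_apply (integrable_cont μ hK hμ hc1) v
    have h2 : v + T r x v = ∫ u, fderiv ℝ f (x + r • u) v ∂μ := by
      have h3 : ∫ u, fderiv ℝ f (x + r • u) v ∂μ = ∫ u, (v + A (x + r • u) v) ∂μ := by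
        congr 1
        funext u
        simp [hA]
      rw [h3, integral_add (integrable_const v) (integrable_cont μ hK hμ
        (hc1.clm_apply continuous_const)), h1]
      simp
    rw [h2, ← ContinuousLinearMap.integral_comp_comm]
    have hc2 : Continuous (fun u => fderiv ℝ f (x + r • u)) :=
      (hfs.continuous_fderiv (by simp)).comp (by fun_prop)
    exact integrable_cont μ hK hμ (hc2.clm_apply continuous_const)
  have hπs : Surjective π := by
    intro w
    obtain ⟨v, hv⟩ := hmean 0 1 one_pos w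
    exact ⟨_, (hTa 1 0 v).trans hv⟩
  -- the large scale
  obtain ⟨δ, hδ, hδ'⟩ := small_balls μ hK hμ hat (ε := 1 / (2 * (M + 1))) (by positivity)
  set ρ : ℝ := R / δ with hρ
  have hρ0 : 0 < ρ := by positivity
  have hTρ : ∀ x, ‖T ρ x‖ ≤ 1 / 2 := by
    intro x
    have hc1 : Continuous (fun u => A (x + ρ • u)) := hAc.comp (by fun_prop)
    have h1 : ‖T ρ x‖ ≤ ∫ u, ‖A (x + ρ • u)‖ ∂μ := norm_integral_le_integral_norm _
    have h2 : ∫ u, ‖A (x + ρ • u)‖ ∂μ ≤
        ∫ u, (closedBall (-(ρ⁻¹ • x)) δ).indicator (fun _ => M) u ∂μ := by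
      refine integral_mono (integrable_cont μ hK hμ hc1.norm)
        ((integrable_const M).indicator isClosed_closedBall.measurableSet) ?_
      intro u
      by_cases hu : u ∈ closedBall (-(ρ⁻¹ • x)) δ
      · simp only [indicator_of_mem hu]
        exact hM _
      · simp only [indicator_of_notMem hu]
        rw [mem_closedBall, dist_eq_norm, sub_neg_eq_add] at hu
        push Not at hu
        have h3 : R ≤ ‖x + ρ • u‖ := by
          have h4 : x + ρ • u = ρ • (u + ρ⁻¹ • x) := by
            rw [smul_add, smul_smul, mul_inv_cancel₀ hρ0.ne', one_smul, add_comm]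
          rw [h4, norm_smul, Real.norm_eq_abs, abs_of_pos hρ0]
          calc R = ρ * δ := by rw [hρ]; field_simp
            _ ≤ ρ * ‖u + ρ⁻¹ • x‖ := mul_le_mul_of_nonneg_left hu.le hρ0.le
        rw [hA0 _ h3, norm_zero]
    have h3 : ∫ u, (closedBall (-(ρ⁻¹ • x)) δ).indicator (fun _ => M) u ∂μ =
        μ.real (closedBall (-(ρ⁻¹ • x)) δ) * M := by
      rw [integral_indicator_const _ isClosed_closedBall.measurableSet, smul_eq_mul]
    have h4 : μ.real (closedBall (-(ρ⁻¹ • x)) δ) * M ≤ 1 / (2 * (M + 1)) * M :=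
      mul_le_mul_of_nonneg_right (hδ' _) hM0
    have h5 : 1 / (2 * (M + 1)) * M ≤ 1 / 2 := by
      rw [div_mul_eq_mul_div, div_le_div_iff₀ (by positivity) (by norm_num)]
      linarith
    linarith
  -- the path
  set a : ℝ → ℝ := fun t => Real.smoothTransition (2 * t) with ha
  set b : ℝ → ℝ := fun t => ρ * Real.smoothTransition (2 * (1 - t)) with hb
  have has : ContDiff ℝ ∞ a := Real.smoothTransition.contDiff.comp (contDiff_const.mul contDiff_id)
  have hbs : ContDiff ℝ ∞ b := contDiff_const.mul (Real.smoothTransition.contDiff.comp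
    (contDiff_const.mul (contDiff_const.sub contDiff_id)))
  have hbnn : ∀ t, 0 ≤ b t := fun t => mul_nonneg hρ0.le (Real.smoothTransition.nonneg _)
  have hble : ∀ t, b t ≤ ρ := fun t => by
    have := mul_le_mul_of_nonneg_left (Real.smoothTransition.le_one (2 * (1 - t))) hρ0.le
    rwa [mul_one] at this
  obtain ⟨κ, hκ⟩ := hK.isBounded.exists_norm_le
  refine main π hπ hf (Q := fun p => π (p.2 + a p.1 • H (b p.1, p.2)))
    (R := R₀ + ρ * (|κ| + 1)) ?_ ?_ ?_ ?_ ?_ ⟨R₀, hR₀⟩
  · exact π.contDiff.comp (contDiff_snd.add ((has.comp contDiff_fst).smul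
      (hHs.comp ((hbs.comp contDiff_fst).prodMk contDiff_snd))))
  · intro t ht x
    have e1 : HasFDerivAt (fun y => π (y + a t • H (b t, y)))
        (π.comp (ContinuousLinearMap.id ℝ E + a t • T (b t) x)) x :=
      π.hasFDerivAt.comp x ((hasFDerivAt_id x).add ((hHd (b t) x).const_smul (a t)))
    show Surjective (fderiv ℝ (fun y => π (y + a t • H (b t, y))) x)
    rw [e1.fderiv]
    rcases le_total t (1 / 2) with h | h
    · have hbt : b t = ρ := by
        simp only [hb]
        rw [Real.smoothTransition.one_of_one_le (by linarith), mul_one]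
      rw [hbt]
      have hinj : Injective (ContinuousLinearMap.id ℝ E + a t • T ρ x : E →L[ℝ] E) := by
        rw [injective_iff_map_eq_zero]
        intro v hv
        have hv' : v + a t • T ρ x v = 0 := hv
        have h2 : ‖a t • T ρ x v‖ ≤ 1 / 2 * ‖v‖ := by
          rw [norm_smul, Real.norm_eq_abs, abs_of_nonneg (Real.smoothTransition.nonneg _)]
          calc a t * ‖T ρ x v‖ ≤ 1 * (‖T ρ x‖ * ‖v‖) := by
                refine mul_le_mul (Real.smoothTransition.le_one _) ((T ρ x).le_opNorm v)
                  (norm_nonneg _) zero_le_one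
            _ ≤ 1 / 2 * ‖v‖ := by
                rw [one_mul]
                exact mul_le_mul_of_nonneg_right (hTρ x) (norm_nonneg _)
        have h3 : ‖v‖ = ‖a t • T ρ x v‖ := by
          have := congrArg norm (eq_neg_of_add_eq_zero_left hv')
          rwa [norm_neg] at this
        have h4 : ‖v‖ ≤ 0 := by linarith
        exact norm_le_zero_iff.1 h4
      exact hπs.comp ((LinearMap.injective_iff_surjective
        (f := ((ContinuousLinearMap.id ℝ E + a t • T ρ x : E →L[ℝ] E) : E →ₗ[ℝ] E))).1 hinj)
    · have hat' : a t = 1 := Real.smoothTransition.one_of_one_le (by linarith)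
      rw [hat', one_smul]
      rcases (hbnn t).eq_or_lt with h0 | h0
      · rw [← h0]
        have h1 : T 0 x = A x := by
          simp only [hT, zero_smul, add_zero, integral_const, probReal_univ, one_smul]
        rw [h1]
        have h2 : (ContinuousLinearMap.id ℝ E + A x : E →L[ℝ] E) = fderiv ℝ f x := by
          simp [hA]
        rw [h2]
        exact hπs.comp ((LinearMap.injective_iff_surjective
          (f := (fderiv ℝ f x : E →ₗ[ℝ] E))).1 (hf.inj x))
      · have h1 := hmean x (b t) h0
        have h2 : (fun v => ∫ u, π (fderiv ℝ f (x + b t • u) v) ∂μ) =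
            fun v => π (v + T (b t) x v) := by
          funext v
          exact (hTa (b t) x v).symm
        rw [h2] at h1
        exact h1
  · intro t _ x hx
    show π (x + a t • H (b t, x)) = π x
    have h1 : H (b t, x) = 0 := by
      simp only [hH]
      refine integral_eq_zero_of_ae ?_
      have h2 : ∀ᵐ u ∂μ, u ∈ K := by
        rw [ae_iff]; exact hμ
      filter_upwards [h2] with u hu
      show g (x + b t • u) = 0
      apply hg0
      have h3 : ‖b t • u‖ ≤ ρ * (|κ| + 1) := by
        rw [norm_smul, Real.norm_eq_abs, abs_of_nonneg (hbnn t)]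
        refine mul_le_mul (hble t) ?_ (norm_nonneg _) hρ0.le
        exact ((hκ u hu).trans (le_abs_self κ)).trans (by linarith)
      have h4 : ‖x‖ ≤ ‖x + b t • u‖ + ‖b t • u‖ := by
        have := norm_sub_le (x + b t • u) (b t • u)
        rwa [add_sub_cancel_right] at this
      linarith
    rw [h1, smul_zero, add_zero]
  · intro x
    show π (x + Real.smoothTransition (2 * 0) • H (b 0, x)) = π x
    rw [mul_zero, Real.smoothTransition.zero, zero_smul, add_zero]
  · intro x
    show π (x + Real.smoothTransition (2 * 1) • H (ρ * Real.smoothTransition (2 * (1 - 1)), x)) =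
      π (f x)
    rw [sub_self, mul_zero, Real.smoothTransition.zero, mul_zero, hH0,
      Real.smoothTransition.one_of_one_le (by norm_num), one_smul]
    simp [hg]

end

end Pool.Agent.H83.BI
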