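import Pool.Agent.H83.BI.StraightFun

/-! Smale's theorem with parameters. -/

set_option autoImplicit false
set_option linter.unusedSectionVars false

open Set Filter Topology Metric Function
open scoped ContDiff
open Pool.Agent.W133.DQ

namespace Pool.Agent.H83.BI

section

variable {B : Type} [NormedAddCommGroup B] [NormedSpace ℝ B] [FiniteDimensional ℝ B]

theorem smale {h : B × P2 → B × P2} (hd : IsDiffeo h) (hR : ∃ R : ℝ, ∀ z, R ≤ ‖z‖ → h z = z)
    (hb : ∀ z, (h z).1 = z.1) : Triv h := by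
  obtain ⟨R₀, hR₀⟩ := hR
  obtain ⟨hs, k, ks, hl, hr⟩ := id hd
  have hkR₀ : ∀ z, R₀ ≤ ‖z‖ → k z = z := by
    intro z hz
    have := hl z
    rwa [hR₀ z hz] at this
  obtain ⟨R, hR, hRR⟩ : ∃ R : ℝ, 0 < R ∧ R₀ < R :=
    ⟨|R₀| + 1, by positivity, by linarith [le_abs_self R₀]⟩
  have hkb : ∀ z, (k z).1 = z.1 := by
    intro z
    have := hb (k z)
    rw [hr z] at this
    exact this.symm
  have hhd : ∀ z, HasFDerivAt h (fderiv ℝ h z) z := fun z =>
    (hs.differentiable (by simp) z).hasFDerivAt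
  have hkd : ∀ z, HasFDerivAt k (fderiv ℝ k z) z := fun z =>
    (ks.differentiable (by simp) z).hasFDerivAt
  set e₁ : B × P2 := (0, (1, 0)) with he₁
  set D : B × P2 → B × P2 := fun z => fderiv ℝ h (k z) e₁ with hD
  have hDs : ContDiff ℝ ∞ D :=
    ((hs.fderiv_right (m := ∞) (by simp)).comp ks).clm_apply contDiff_const
  have hD1 : ∀ z, (D z).1 = 0 := by
    intro z
    have e1 := (hhd (k z)).fst
    have e2 : (fun x => (h x).1) = fun x => x.1 := funext hb
    rw [e2] at e1
    have e3 := e1.unique (ContinuousLinearMap.fst ℝ B P2).hasFDerivAt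
    exact DFunLike.congr_fun e3 e₁
  have hD2 : ∀ z, (D z).2 ≠ 0 := by
    intro z h0
    have h1 : D z = 0 := Prod.ext (hD1 z) h0
    have h2 : e₁ = 0 := by
      apply hd.inj (k z)
      rw [map_zero]
      exact h1
    have h3 := congrArg (fun w : B × P2 => w.2.1) h2
    simp [he₁] at h3
  have hDR : ∀ z, R ≤ ‖z‖ → D z = e₁ := by
    intro z hz
    have h1 : h =ᶠ[𝓝 z] fun x => x := by
      filter_upwards [(isOpen_lt continuous_const continuous_norm).mem_nhds
        (lt_of_lt_of_le hRR hz)] with x hx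
      exact hR₀ x (le_of_lt hx)
    simp only [hD]
    rw [hkR₀ z (hRR.le.trans hz), h1.fderiv_eq]
    simp
  have hkD : ∀ z, fderiv ℝ k z (D z) = e₁ := by
    intro z
    have e1 : HasFDerivAt k (fderiv ℝ k z) (h (k z)) := by
      rw [hr z]; exact hkd z
    have e2 := e1.comp (k z) (hhd (k z))
    have e3 : k ∘ h = fun x => x := funext hl
    rw [e3] at e2
    have e4 := e2.unique (hasFDerivAt_id (k z))
    exact DFunLike.congr_fun e4 e₁
  -- the angle function
  set u : B × P2 → ℂ := fun z => Complex.equivRealProdCLM.symm (D z).2 with hu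
  have hus : ContDiff ℝ ∞ u :=
    Complex.equivRealProdCLM.symm.contDiff.comp (contDiff_snd.comp hDs)
  have hure : ∀ z, (u z).re = (D z).2.1 := fun z => rfl
  have huim : ∀ z, (u z).im = (D z).2.2 := fun z => rfl
  obtain ⟨ψ, hψs, hψR, hψ⟩ := angle hus (fun z h0 => by
      apply hD2 z
      refine Prod.ext ?_ ?_
      · rw [← hure, h0]; rfl
      · rw [← huim, h0]; rfl) hR (fun z hz => by
      apply Complex.ext
      · rw [hure, hDR z hz]; rfl
      · rw [huim, hDR z hz]; rfl)
  obtain ⟨q, hqs, hq1, hq2, hq3, hq4, hq5⟩ := straight_fun hψs hR hψR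
  have hnorm : ∀ (b : B) (x y : ℝ), (R ≤ |x| ∨ R ≤ |y| ∨ R ≤ ‖b‖) →
      R ≤ ‖((b, (x, y)) : B × P2)‖ := by
    intro b x y h
    rw [Prod.norm_def, Prod.norm_def]
    rcases h with h | h | h
    · exact (h.trans (le_max_left _ _)).trans (le_max_right _ _)
    · exact (h.trans (le_max_right _ _)).trans (le_max_right _ _)
    · exact h.trans (le_max_left _ _)
  have hq6 : ∀ z, q (1, z) = (k z).2.2 := by
    refine hq5 (fun z => (k z).2.2) ?_ ?_ ?_
    · exact (contDiff_snd.comp (contDiff_snd.comp ks)).differentiable (by simp)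
    · intro z
      obtain ⟨ρ, hρ, h1, h2⟩ := hψ z
      have e1 : HasFDerivAt (fun z => (k z).2.2)
          ((ContinuousLinearMap.snd ℝ ℝ ℝ).comp ((ContinuousLinearMap.snd ℝ B P2).comp
            (fderiv ℝ k z))) z :=
        (ContinuousLinearMap.snd ℝ ℝ ℝ).hasFDerivAt.comp z
          ((ContinuousLinearMap.snd ℝ B P2).hasFDerivAt.comp z (hkd z))
      rw [e1.fderiv]
      have e2 : D z = ρ • ((0, (Real.cos (ψ z), Real.sin (ψ z))) : B × P2) := by
        refine Prod.ext ?_ (Prod.ext ?_ ?_)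
        · rw [hD1]; simp
        · rw [← hure, h1]; simp
        · rw [← huim, h2]; simp
      have e3 := hkD z
      rw [e2, map_smul] at e3
      have e4 : fderiv ℝ k z (0, (Real.cos (ψ z), Real.sin (ψ z))) = ρ⁻¹ • e₁ := by
        rw [← e3, smul_smul, inv_mul_cancel₀ hρ.ne', one_smul]
      show (fderiv ℝ k z (0, (Real.cos (ψ z), Real.sin (ψ z)))).2.2 = 0
      rw [e4]
      simp [he₁]
    · intro b x y hx
      show (k (b, (x, y))).2.2 = y
      rw [hkR₀ _ (hRR.le.trans (hnorm b x y (Or.inl (by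
        rw [abs_of_nonpos (by linarith)]; linarith))))]
  -- the path of submersions
  set κ : ℝ → ℝ := fun x => Real.smoothTransition (x - (R + 1)) with hκ
  have hκs : ContDiff ℝ ∞ κ :=
    Real.smoothTransition.contDiff.comp (contDiff_id.sub contDiff_const)
  have hκ0 : ∀ x, x ≤ R + 1 → κ x = 0 := fun x hx =>
    Real.smoothTransition.zero_of_nonpos (by linarith)
  have hκ1 : ∀ x, R + 2 ≤ x → κ x = 1 := fun x hx =>
    Real.smoothTransition.one_of_one_le (by linarith)
  have hκn : ∀ x, 0 ≤ κ x := fun x => Real.smoothTransition.nonneg _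
  have hκl : ∀ x, κ x ≤ 1 := fun x => Real.smoothTransition.le_one _
  set P : ℝ × (B × P2) → ℝ := fun w => q w + κ w.2.2.1 * (w.2.2.2 - q w) with hP
  have hPs : ContDiff ℝ ∞ P :=
    hqs.add ((hκs.comp (contDiff_fst.comp (contDiff_snd.comp contDiff_snd))).mul
      ((contDiff_snd.comp (contDiff_snd.comp contDiff_snd)).sub hqs))
  set π : B × P2 →L[ℝ] B × ℝ := (ContinuousLinearMap.fst ℝ B P2).prod
    ((ContinuousLinearMap.snd ℝ ℝ ℝ).comp (ContinuousLinearMap.snd ℝ B P2)) with hπ
  have hπa : ∀ z, π z = (z.1, z.2.2) := fun z => rfl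
  have hfin : Module.finrank ℝ (LinearMap.ker (π : B × P2 →ₗ[ℝ] B × ℝ)) ≤ 1 := by
    refine finrank_le_one ⟨e₁, ?_⟩ ?_
    · rw [LinearMap.mem_ker]
      show π e₁ = 0
      rw [hπa]; rfl
    · rintro ⟨⟨b, x, y⟩, hw⟩
      rw [LinearMap.mem_ker] at hw
      have hw' : ((b, y) : B × ℝ) = 0 := hw
      obtain ⟨h1, h2⟩ := Prod.mk.inj hw'
      refine ⟨x, Subtype.ext ?_⟩
      show x • e₁ = (b, (x, y))
      rw [h1, h2, he₁]
      simp
  -- the derivative of `q` in the `y`-direction on the right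
  have hqy : ∀ t b x y, R < x → 0 < fderiv ℝ (fun z => q (t, z)) (b, (x, y)) (0, (0, 1)) := by
    intro t b x y hx
    have hqt : ∀ z, HasFDerivAt (fun z => q (t, z)) (fderiv ℝ (fun z => q (t, z)) z) z :=
      fun z => ((slice hqs t).differentiable (by simp) z).hasFDerivAt
    have hne : ∀ y, fderiv ℝ (fun z => q (t, z)) (b, (x, y)) (0, (0, 1)) ≠ 0 := by
      intro y h0
      obtain ⟨⟨v1, v2⟩, hv⟩ := hq1 t (b, (x, y))
      apply hv
      have e1 : ((0, (v1, v2)) : B × P2) = v1 • (0, (1, 0)) + v2 • (0, (0, 1)) := by simp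
      rw [e1, map_add, map_smul, map_smul, h0, smul_zero, add_zero]
      have e2 : HasDerivAt (fun s : ℝ => ((b, (s, y)) : B × P2)) (0, (1, 0)) x :=
        (hasDerivAt_const x b).prodMk ((hasDerivAt_id' x).prodMk (hasDerivAt_const x y))
      have e3 := (hqt (b, (x, y))).comp_hasDerivAt x e2
      have e4 : ((fun z => q (t, z)) ∘ fun s : ℝ => ((b, (s, y)) : B × P2)) =ᶠ[𝓝 x]
          fun _ => q (t, (b, (R, y))) := by
        filter_upwards [Ioi_mem_nhds hx] with s hs
        have := hq4 t b R y (s - R) le_rfl (by linarith [mem_Ioi.1 hs])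
        rw [add_sub_cancel] at this
        exact this
      have e5 := (e3.congr_of_eventuallyEq e4.symm).unique (hasDerivAt_const x _)
      rw [e5, smul_zero]
    have hcont : Continuous (fun y => fderiv ℝ (fun z => q (t, z)) (b, (x, y)) (0, (0, 1))) := by
      have h1 : Continuous (fderiv ℝ (fun z => q (t, z))) :=
        (slice hqs t).continuous_fderiv (by simp)
      exact (h1.comp (by fun_prop)).clm_apply continuous_const
    have hone : fderiv ℝ (fun z => q (t, z)) (b, (x, R + 1)) (0, (0, 1)) = 1 := by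
      have e2 : HasDerivAt (fun s : ℝ => ((b, (x, s)) : B × P2)) (0, (0, 1)) (R + 1) :=
        (hasDerivAt_const _ b).prodMk ((hasDerivAt_const _ x).prodMk (hasDerivAt_id' _))
      have e3 := (hqt (b, (x, R + 1))).comp_hasDerivAt (R + 1) e2
      have e4 : ((fun z => q (t, z)) ∘ fun s : ℝ => ((b, (x, s)) : B × P2)) =ᶠ[𝓝 (R + 1)]
          fun s => s := by
        filter_upwards [Ioi_mem_nhds (show R < R + 1 by linarith)] with s hs
        exact hq2 t b x s (Or.inr (Or.inl ((le_of_lt hs).trans (le_abs_self s))))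
      exact (e3.congr_of_eventuallyEq e4.symm).unique (hasDerivAt_id' _)
    by_contra hneg
    obtain ⟨y', hy'⟩ := mem_range_of_exists_le_of_exists_ge hcont (c := 0) ⟨y, not_lt.1 hneg⟩
      ⟨R + 1, by rw [hone]; exact zero_le_one⟩
    exact hne y' hy'
  have hPd : ∀ t z, ∃ v : P2, fderiv ℝ (fun z => P (t, z)) z (0, v) ≠ 0 := by
    rintro t ⟨b, x, y⟩
    by_cases hx : x < R + 1
    · obtain ⟨v, hv⟩ := hq1 t (b, (x, y))
      refine ⟨v, ?_⟩
      have h1 : (fun z => P (t, z)) =ᶠ[𝓝 (b, (x, y))] fun z => q (t, z) := by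
        have h2 : Continuous (fun z : B × P2 => z.2.1) := by fun_prop
        filter_upwards [h2.continuousAt.eventually_lt continuousAt_const hx] with z hz
        show q (t, z) + κ z.2.1 * (z.2.2 - q (t, z)) = q (t, z)
        rw [hκ0 _ hz.le, zero_mul, add_zero]
      rw [h1.fderiv_eq]
      exact hv
    · push Not at hx
      refine ⟨(0, 1), ?_⟩
      have hqt : HasFDerivAt (fun z => q (t, z)) (fderiv ℝ (fun z => q (t, z)) (b, (x, y)))
          (b, (x, y)) := ((slice hqs t).differentiable (by simp) _).hasFDerivAt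
      have hPt : HasFDerivAt (fun z => P (t, z)) (fderiv ℝ (fun z => P (t, z)) (b, (x, y)))
          (b, (x, y)) := ((slice hPs t).differentiable (by simp) _).hasFDerivAt
      have e2 : HasDerivAt (fun s : ℝ => ((b, (x, s)) : B × P2)) (0, (0, 1)) y :=
        (hasDerivAt_const _ b).prodMk ((hasDerivAt_const _ x).prodMk (hasDerivAt_id' _))
      have e3 := hqt.comp_hasDerivAt y e2
      have e4 := hPt.comp_hasDerivAt y e2
      have e5 : HasDerivAt (fun s : ℝ => q (t, (b, (x, s))) + κ x * (s - q (t, (b, (x, s)))))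
          (fderiv ℝ (fun z => q (t, z)) (b, (x, y)) (0, (0, 1)) +
            κ x * (1 - fderiv ℝ (fun z => q (t, z)) (b, (x, y)) (0, (0, 1)))) y := by
        have e6 : HasDerivAt (fun s : ℝ => q (t, (b, (x, s))))
            (fderiv ℝ (fun z => q (t, z)) (b, (x, y)) (0, (0, 1))) y := e3
        exact e6.add (((hasDerivAt_id' y).sub e6).const_mul (κ x))
      have e7 := e4.unique e5
      rw [e7]
      have h1 := hqy t b x y (by linarith)
      have h2 := hκn x
      have h3 := hκl x
      intro h4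
      rcases h2.eq_or_lt with h5 | h5
      · rw [← h5, zero_mul, add_zero] at h4
        exact h1.ne' h4
      · have h6 := mul_nonneg (sub_nonneg.2 h3) h1.le
        linarith
  have key : Triv k := by
    refine reduce π (triv_of_fiber_one π hfin) (f := k) ⟨ks, h, hs, hr, hl⟩
      (Q := fun w => (w.2.1, P w)) (R := R + 2) ((contDiff_fst.comp contDiff_snd).prodMk hPs)
      ?_ ?_ ?_ ?_ ⟨R₀, hkR₀⟩
    · intro t _ z
      have e1 : HasFDerivAt (fun z => P (t, z)) (fderiv ℝ (fun z => P (t, z)) z) z :=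
        ((slice hPs t).differentiable (by simp) z).hasFDerivAt
      have e2 : HasFDerivAt (fun z : B × P2 => (z.1, P (t, z)))
          ((ContinuousLinearMap.fst ℝ B P2).prod (fderiv ℝ (fun z => P (t, z)) z)) z :=
        (ContinuousLinearMap.fst ℝ B P2).hasFDerivAt.prodMk e1
      show Surjective (fderiv ℝ (fun z : B × P2 => (z.1, P (t, z))) z)
      rw [e2.fderiv]
      obtain ⟨v, hv⟩ := hPd t z
      rintro ⟨β, s⟩
      refine ⟨(β, ((s - fderiv ℝ (fun z => P (t, z)) z (β, 0)) /
        fderiv ℝ (fun z => P (t, z)) z (0, v)) • v), ?_⟩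
      refine Prod.ext rfl ?_
      show fderiv ℝ (fun z => P (t, z)) z (β, _ • v) = s
      have e3 : ∀ r : ℝ, ((β, r • v) : B × P2) = (β, 0) + r • (0, v) := by
        intro r; simp
      rw [e3, map_add, map_smul, smul_eq_mul, div_mul_cancel₀ _ hv]
      ring
    · rintro t _ ⟨b, x, y⟩ hz
      show ((b, q (t, (b, (x, y))) + κ x * (y - q (t, (b, (x, y))))) : B × ℝ) = (b, y)
      refine Prod.ext rfl ?_
      show q (t, (b, (x, y))) + κ x * (y - q (t, (b, (x, y)))) = y
      rw [Prod.norm_def, Prod.norm_def] at hz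
      simp only [Real.norm_eq_abs] at hz
      have h0 : (x ≤ -R ∨ R ≤ |y| ∨ R ≤ ‖b‖) ∨ R + 2 ≤ x := by
        rcases le_max_iff.1 hz with h | h
        · left; right; right; linarith
        · rcases le_max_iff.1 h with h | h
          · rcases le_abs'.1 h with h | h
            · left; left; linarith
            · right; exact h
          · left; right; left; linarith
      rcases h0 with h0 | h0
      · rw [hq2 t b x y h0, sub_self, mul_zero, add_zero]
      · rw [hκ1 x h0]; ring
    · intro z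
      show ((z.1, q (0, z) + κ z.2.1 * (z.2.2 - q (0, z))) : B × ℝ) = (z.1, z.2.2)
      rw [hq3, sub_self, mul_zero, add_zero]
    · rintro ⟨b, x, y⟩
      show ((b, q (1, (b, (x, y))) + κ x * (y - q (1, (b, (x, y))))) : B × ℝ) =
        ((k (b, (x, y))).1, (k (b, (x, y))).2.2)
      rw [hkb, hq6]
      refine Prod.ext rfl ?_
      show (k (b, (x, y))).2.2 + κ x * (y - (k (b, (x, y))).2.2) = (k (b, (x, y))).2.2
      by_cases hx : x ≤ R + 1
      · rw [hκ0 x hx, zero_mul, add_zero]
      · push Not at hx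
        have h1 : k (b, (x, y)) = (b, (x, y)) := by
          apply hkR₀
          refine hRR.le.trans (hnorm b x y (Or.inl ?_))
          exact (by linarith : R ≤ x).trans (le_abs_self x)
        rw [h1]
        simp
  exact key.inv hl

end

end Pool.Agent.H83.BI
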