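import Pool.Agent.H83.BI.Moser
import Pool.Agent.H83.BI.Angle
import Pool.Agent.H83.BI.S8.W509.DQ.Dyn
import Pool.Agent.H83.BI.S8.W853.DQ.Curve
import Pool.Agent.H83.BI.S8.W67.DQ.LIFT

/-! Straightening of families of unit fields of the plane, with parameters. -/

set_option autoImplicit false
set_option linter.unusedSectionVars false

open Set Filter Topology Metric Function
open scoped ContDiff
open Pool.Agent.W133.DQ

namespace Pool.Agent.H83.BI

theorem h_ESC : S_ESC :=
  Pool.Agent.W509.DQ.esc (Pool.Agent.W509.DQ.noinv Pool.Agent.W509.DQ.minset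
    Pool.Agent.W509.DQ.ret (Pool.Agent.W853.DQ.t_curve Pool.Agent.W67.DQ.lift))

/-- integral curves starting along a straight line -/
theorem line {V : Type} [NormedAddCommGroup V] [NormedSpace ℝ V] {X : V → V} {K : NNReal}
    (hX : LipschitzWith K X) (c : ℝ → V)
    (hc : ∀ s, HasDerivAt c (X (c s)) s) (v : V) (b : ℝ) (hb : 0 ≤ b)
    (hv : ∀ u, 0 ≤ u → u ≤ b → X (c 0 + u • v) = v) : c b = c 0 + b • v := by
  have hg : ∀ u : ℝ, HasDerivAt (fun u : ℝ => c 0 + u • v) v u := by
    intro u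
    have h1 := ((hasDerivAt_id u).smul_const v).const_add (c 0)
    simpa using h1
  have h := ODE_solution_unique_of_mem_Icc_right (v := fun _ => X) (s := fun _ => univ) (K := K)
    (f := c) (g := fun u => c 0 + u • v) (a := 0) (b := b) (fun _ _ => hX.lipschitzOnWith)
    (fun u _ => (hc u).continuousAt.continuousWithinAt) (fun u _ => (hc u).hasDerivWithinAt)
    (fun _ _ => mem_univ _) (fun u _ => (hg u).continuousAt.continuousWithinAt)
    (fun u hu => by
      have := (hg u).hasDerivWithinAt (s := Ici u)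
      rw [hv u hu.1 hu.2.le]
      exact this) (fun _ _ => mem_univ _) (by simp)
  exact h ⟨hb, le_rfl⟩

/-- time cut-off -/
noncomputable def ac (t : ℝ) : ℝ := Real.smoothTransition t * Real.smoothTransition (3 - t)

theorem ac_smooth : ContDiff ℝ ∞ ac :=
  Real.smoothTransition.contDiff.mul
    (Real.smoothTransition.contDiff.comp (contDiff_const.sub contDiff_id))

theorem ac_zero {t : ℝ} (h : t ≤ 0 ∨ 3 ≤ t) : ac t = 0 := by
  unfold ac
  rcases h with h | h
  · rw [Real.smoothTransition.zero_of_nonpos h, zero_mul]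
  · rw [Real.smoothTransition.zero_of_nonpos (by linarith : 3 - t ≤ 0), mul_zero]

theorem ac_one : ac 1 = 1 := by
  unfold ac
  rw [Real.smoothTransition.one_of_one_le le_rfl, Real.smoothTransition.one_of_one_le (by norm_num),
    one_mul]

section

variable {B : Type} [NormedAddCommGroup B] [NormedSpace ℝ B] [FiniteDimensional ℝ B]

theorem straight_fun {ψ : B × P2 → ℝ} (hψ : ContDiff ℝ ∞ ψ) {R : ℝ} (hR : 0 < R)
    (hψR : ∀ z, R ≤ ‖z‖ → ψ z = 0) :
    ∃ q : ℝ × (B × P2) → ℝ, ContDiff ℝ ∞ q ∧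
      (∀ t z, ∃ v : P2, fderiv ℝ (fun y => q (t, y)) z (0, v) ≠ 0) ∧
      (∀ t b x y, (x ≤ -R ∨ R ≤ |y| ∨ R ≤ ‖b‖) → q (t, (b, (x, y))) = y) ∧
      (∀ z : B × P2, q (0, z) = z.2.2) ∧
      (∀ t b x y d, R ≤ x → 0 ≤ d → q (t, (b, (x + d, y))) = q (t, (b, (x, y)))) ∧
      ∀ g : B × P2 → ℝ, Differentiable ℝ g →
        (∀ z, fderiv ℝ g z (0, (Real.cos (ψ z), Real.sin (ψ z))) = 0) →
        (∀ b x y, x ≤ -R → g (b, (x, y)) = y) → ∀ z, q (1, z) = g z := by
  -- the field
  set X : ℝ × (B × P2) → ℝ × (B × P2) := fun w =>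
    (0, (0, (Real.cos (ac w.1 * ψ w.2) - 1, Real.sin (ac w.1 * ψ w.2)))) with hX
  set c : ℝ × (B × P2) := (0, (0, (1, 0))) with hc
  have haψ : ContDiff ℝ ∞ (fun w : ℝ × (B × P2) => ac w.1 * ψ w.2) :=
    (ac_smooth.comp contDiff_fst).mul (hψ.comp contDiff_snd)
  have hXs : ContDiff ℝ ∞ X :=
    contDiff_const.prodMk (contDiff_const.prodMk
      (((Real.contDiff_cos.comp haψ).sub contDiff_const).prodMk (Real.contDiff_sin.comp haψ)))
  have hcX : ∀ w, c + X w = (0, (0, XF (fun p => ac w.1 * ψ (w.2.1, p)) w.2.2)) := by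
    intro w
    simp only [hc, hX, XF, Prod.mk_add_mk, add_zero, zero_add, add_sub_cancel]
  have hXz : ∀ w : ℝ × (B × P2), ac w.1 * ψ w.2 = 0 → X w = 0 := by
    intro w hw
    simp only [hX, hw, Real.cos_zero, Real.sin_zero, sub_self]
    rfl
  have hXc : HasCompactSupport X := by
    refine HasCompactSupport.intro ((isCompact_Icc (a := (0 : ℝ)) (b := 3)).prod
      (isCompact_closedBall (0 : B × P2) R)) ?_
    rintro ⟨s, z⟩ hp
    apply hXz
    by_cases hz : R ≤ ‖z‖
    · simp only [hψR z hz, mul_zero]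
    · have hz' : z ∈ closedBall (0 : B × P2) R := by
        rw [mem_closedBall_zero_iff]; exact (not_le.1 hz).le
      by_cases h1 : s < 0
      · simp only [ac_zero (Or.inl h1.le), zero_mul]
      · by_cases h2 : 3 < s
        · simp only [ac_zero (Or.inr h2.le), zero_mul]
        · have h3 : s ∈ Icc (0 : ℝ) 3 := ⟨not_lt.1 h1, not_lt.1 h2⟩
          exact absurd (mk_mem_prod h3 hz') hp
  obtain ⟨K, hK⟩ := hXs.lipschitzWith_of_hasCompactSupport hXc (by simp)
  have hlip : LipschitzWith K (fun w => c + X w) := by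
    refine LipschitzWith.of_dist_le_mul fun a b => ?_
    rw [dist_add_left]
    exact hK.dist_le_mul a b
  obtain ⟨G, hG, hG0, hGa, hGd, hGu⟩ := Pool.Agent.W5h49.EC.flow_affine c X hXs hXc
  -- the parameters are preserved
  have hconst : ∀ (ℓ : ℝ × (B × P2) →L[ℝ] ℝ × B), (∀ w, ℓ (c + X w) = 0) →
      ∀ w s, ℓ (G s w) = ℓ w := by
    intro ℓ hℓ w s
    have h1 : ∀ s, HasDerivAt (fun s => ℓ (G s w)) 0 s := by
      intro s
      have h3 := hGd w s
      have h4 := ℓ.hasFDerivAt.comp_hasDerivAt s h3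
      rw [hℓ] at h4
      exact h4
    have h2 := is_const_of_deriv_eq_zero (fun r => (h1 r).differentiableAt)
      (fun r => (h1 r).deriv) s 0
    simp only [hG0] at h2
    exact h2
  have hpar : ∀ w s, (G s w).1 = w.1 ∧ (G s w).2.1 = w.2.1 := by
    intro w s
    have h1 := hconst ((ContinuousLinearMap.fst ℝ ℝ (B × P2)).prod
      ((ContinuousLinearMap.fst ℝ B P2).comp (ContinuousLinearMap.snd ℝ ℝ (B × P2)))) (fun w => by
        rw [hcX]; rfl) w s
    have h2 := Prod.ext_iff.1 h1
    exact ⟨h2.1, h2.2⟩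
  have hpair : ∀ t b p s, G s (t, (b, p)) = (t, (b, (G s (t, (b, p))).2.2)) := by
    intro t b p s
    have h1 := hpar (t, (b, p)) s
    exact Prod.ext h1.1 (Prod.ext h1.2 rfl)
  have hneg : ∀ s w, G (-s) (G s w) = w := by
    intro s w
    rw [← hGa, neg_add_cancel, hG0]
  have hneg' : ∀ s w, G s (G (-s) w) = w := by
    intro s w
    rw [← hGa, add_neg_cancel, hG0]
  let Ψ : ℝ → B → ℝ → Equiv.Perm P2 := fun t b s =>
    { toFun := fun p => (G s (t, (b, p))).2.2
      invFun := fun p => (G (-s) (t, (b, p))).2.2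
      left_inv := fun p => by
        show (G (-s) (t, (b, (G s (t, (b, p))).2.2))).2.2 = p
        rw [← hpair, hneg]
      right_inv := fun p => by
        show (G s (t, (b, (G (-s) (t, (b, p))).2.2))).2.2 = p
        rw [← hpair, hneg'] }
  have hΨ : ∀ t b s p, Ψ t b s p = (G s (t, (b, p))).2.2 := fun _ _ _ _ => rfl
  have hfl : ∀ t b, IsFl (XF (fun p => ac t * ψ (b, p))) (Ψ t b) := by
    intro t b
    refine ⟨?_, ?_, ?_, ?_⟩
    · ext1 p
      rw [hΨ, hG0]; rfl
    · intro s s'
      ext1 p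
      rw [Equiv.Perm.mul_apply, hΨ, hΨ, hΨ, hGa, ← hpair]
    · have h1 : ContDiff ℝ ∞ (fun q : ℝ × P2 => (q.1, ((t, (b, q.2)) : ℝ × (B × P2)))) :=
        contDiff_fst.prodMk (contDiff_const.prodMk (contDiff_const.prodMk contDiff_snd))
      exact contDiff_snd.comp (contDiff_snd.comp (hG.comp h1))
    · intro s p
      have h1 := (hGd (t, (b, p)) s).snd.snd
      have h2 : (c + X (G s (t, (b, p)))).2.2 = XF (fun p => ac t * ψ (b, p)) (Ψ t b s p) := by
        rw [hcX, (hpar _ _).1, (hpar _ _).2]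
        rfl
      rw [← h2]
      exact h1
  have hnorm : ∀ (b : B) (x y : ℝ), (R ≤ |x| ∨ R ≤ |y| ∨ R ≤ ‖b‖) →
      R ≤ ‖((b, (x, y)) : B × P2)‖ := by
    intro b x y h
    rw [Prod.norm_def, Prod.norm_def]
    rcases h with h | h | h
    · exact (h.trans (le_max_left _ _)).trans (le_max_right _ _)
    · exact (h.trans (le_max_right _ _)).trans (le_max_right _ _)
    · exact h.trans (le_max_left _ _)
  have hesc : ∀ w : ℝ × (B × P2), ∃ T : ℝ, (G T w).2.2.1 < -R := by
    rintro ⟨t, b, p⟩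
    have hψt : ContDiff ℝ ∞ (fun p => ac t * ψ (b, p)) :=
      contDiff_const.mul (hψ.comp (contDiff_const.prodMk contDiff_id))
    have hz : ∀ p : P2, R ≤ ‖p‖ → ac t * ψ (b, p) = 0 := by
      intro p hp
      rw [hψR (b, p) (hp.trans (le_max_right _ _)), mul_zero]
    obtain ⟨T, -, hT⟩ := (h_ESC _ R (Ψ t b) hψt hR hz (hfl t b) p).2
    exact ⟨T, hT⟩
  have hstr : ∀ w : ℝ × (B × P2), ac w.1 * ψ w.2 = 0 → c + X w = (0, (0, (1, 0))) := by
    intro w hw
    rw [hXz w hw, add_zero]
  have hleft : ∀ t b x y s, s ≤ 0 → x ≤ -R → G s (t, (b, (x, y))) = (t, (b, (x + s, y))) := by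
    intro t b x y s hs hx
    have hlip' : LipschitzWith K (fun w => -(c + X w)) := by
      refine LipschitzWith.of_dist_le_mul fun p p' => ?_
      rw [dist_neg_neg]
      exact hlip.dist_le_mul p p'
    have h1 := line hlip' (fun r => G (-r) (t, (b, (x, y)))) (fun r => by
      have h3 := (hGd (t, (b, (x, y))) (-r)).scomp r (hasDerivAt_neg r)
      have h4 : HasDerivAt (fun r => G (-r) (t, (b, (x, y)))) ((-1 : ℝ) •
          (c + X (G (-r) (t, (b, (x, y)))))) r := h3
      rw [neg_one_smul] at h4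
      exact h4) (0, (0, (-1, 0))) (-s) (by linarith) (by
      intro u hu hub
      have h2 : G (-0) (t, (b, (x, y))) + u • ((0, (0, (-1, 0))) : ℝ × (B × P2)) =
          (t, (b, (x - u, y))) := by
        rw [neg_zero, hG0]
        simp [sub_eq_add_neg]
      show -(c + X (G (-0) (t, (b, (x, y))) + u • ((0, (0, (-1, 0))) : ℝ × (B × P2)))) = _
      rw [h2, hstr]
      · simp
      · simp only
        rw [hψR _ (hnorm b (x - u) y (Or.inl (by rw [abs_of_nonpos (by linarith)]; linarith))),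
          mul_zero])
    simp only [neg_neg, neg_zero, hG0] at h1
    rw [h1]
    simp
  have hright : ∀ t b x y s, 0 ≤ s → R ≤ x → G s (t, (b, (x, y))) = (t, (b, (x + s, y))) := by
    intro t b x y s hs hx
    have h1 := line hlip (fun r => G r (t, (b, (x, y)))) (fun r => hGd _ r)
      (0, (0, (1, 0))) s hs (by
      intro u hu hub
      have h2 : G 0 (t, (b, (x, y))) + u • ((0, (0, (1, 0))) : ℝ × (B × P2)) =
          (t, (b, (x + u, y))) := by
        rw [hG0]
        simp
      show (c + X (G 0 (t, (b, (x, y))) + u • ((0, (0, (1, 0))) : ℝ × (B × P2)))) = _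
      rw [h2, hstr]
      simp only
      rw [hψR _ (hnorm b (x + u) y (Or.inl (by rw [abs_of_nonneg (by linarith)]; linarith))),
        mul_zero])
    simp only [hG0] at h1
    rw [h1]
    simp
  have hall : ∀ t b x y, (∀ x', ac t * ψ (b, (x', y)) = 0) →
      ∀ s, G s (t, (b, (x, y))) = (t, (b, (x + s, y))) := by
    intro t b x y h s
    have h1 := hGu (fun s => ((t, (b, (x + s, y))) : ℝ × (B × P2))) (fun r => by
      rw [hstr _ (h (x + r))]
      refine (hasDerivAt_const r t).prodMk ((hasDerivAt_const r b).prodMk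
        (HasDerivAt.prodMk ?_ (hasDerivAt_const r y)))
      simpa using (hasDerivAt_id' r).const_add x) s
    simp only [add_zero] at h1
    exact h1.symm
  -- the function
  choose T hT using hesc
  set q : ℝ × (B × P2) → ℝ := fun w => (G (T w) w).2.2.2 with hq
  have hqs : ∀ w s, (G s w).2.2.1 ≤ -R → (G s w).2.2.2 = q w := by
    intro w s hs
    have key : ∀ s s', s ≤ s' → (G s' w).2.2.1 ≤ -R → (G s w).2.2.2 = (G s' w).2.2.2 := by
      intro s s' hss h
      obtain ⟨w', hw'⟩ : ∃ w', w' = G s' w := ⟨_, rfl⟩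
      have h1 : G s w = G (s - s') w' := by
        rw [hw', ← hGa, sub_add_cancel]
      rw [h1, ← hw']
      rw [← hw'] at h
      obtain ⟨t', b', x', y'⟩ := w'
      rw [hleft t' b' x' y' (s - s') (by linarith) h]
    rcases le_total s (T w) with h | h
    · exact key s (T w) h (hT w).le
    · exact (key (T w) s h hs).symm
  have hqinv : ∀ w s, q (G s w) = q w := by
    intro w s
    rw [← hqs w (T (G s w) + s) (by rw [hGa]; exact (hT _).le), hGa]
  have hqsm : ContDiff ℝ ∞ q := by
    rw [contDiff_iff_contDiffAt]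
    intro w₀
    have h1 : ContDiff ℝ ∞ (fun w => G (T w₀) w) := hG.comp (contDiff_const.prodMk contDiff_id)
    have h2 : ContDiff ℝ ∞ (fun w => (G (T w₀) w).2.2.2) :=
      contDiff_snd.comp (contDiff_snd.comp (contDiff_snd.comp h1))
    refine h2.contDiffAt.congr_of_eventuallyEq ?_
    have h3 : Continuous (fun w => (G (T w₀) w).2.2.1) :=
      (contDiff_fst.comp (contDiff_snd.comp (contDiff_snd.comp h1))).continuous
    filter_upwards [h3.continuousAt.eventually_lt continuousAt_const (hT w₀)] with w hw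
    exact (hqs w (T w₀) hw.le).symm
  refine ⟨q, hqsm, ?_, ?_, ?_, ?_, ?_⟩
  · -- the derivative
    rintro t ⟨b, p⟩
    obtain ⟨S, hS⟩ : ∃ S, S = T (t, (b, p)) := ⟨_, rfl⟩
    obtain ⟨p', hp'⟩ : ∃ p', p' = (G S (t, (b, p))).2.2 := ⟨_, rfl⟩
    have hp'1 : p'.1 < -R := by rw [hp', hS]; exact hT _
    have hGp : G S (t, (b, p)) = (t, (b, p')) := by rw [hp', ← hpair]
    set η : ℝ → P2 := fun r => (G (-S) (t, (b, (p'.1, p'.2 + r)))).2.2 with hη
    have hηs : ContDiff ℝ ∞ η := by
      have h0 : ContDiff ℝ ∞ (fun r : ℝ =>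
          ((-S, (t, (b, (p'.1, p'.2 + r)))) : ℝ × (ℝ × (B × P2)))) :=
        contDiff_const.prodMk (contDiff_const.prodMk (contDiff_const.prodMk
          (contDiff_const.prodMk (contDiff_const.add contDiff_id))))
      exact contDiff_snd.comp (contDiff_snd.comp (hG.comp h0))
    have hη0 : η 0 = p := by
      have h1 : ((p'.1, p'.2 + 0) : P2) = p' := by simp
      simp only [hη, h1]
      rw [← hGp, hneg]
    have hηq : ∀ r, q (t, (b, η r)) = p'.2 + r := by
      intro r
      have h1 : G S (t, (b, η r)) = (t, (b, (p'.1, p'.2 + r))) := by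
        simp only [hη]
        rw [← hpair, hneg']
      rw [← hqs (t, (b, η r)) S (by rw [h1]; exact hp'1.le), h1]
    have hηd : HasDerivAt η (deriv η 0) 0 := (hηs.differentiable (by simp) 0).hasDerivAt
    refine ⟨deriv η 0, ?_⟩
    have hqt : HasFDerivAt (fun y => q (t, y)) (fderiv ℝ (fun y => q (t, y)) (b, η 0)) (b, η 0) :=
      ((slice hqsm t).differentiable (by simp) _).hasFDerivAt
    have e1 : HasDerivAt (fun r => ((b, η r) : B × P2)) ((0 : B), deriv η 0) 0 :=
      (hasDerivAt_const 0 b).prodMk hηd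
    have e2 := hqt.comp_hasDerivAt (0 : ℝ) e1
    have e3 : ((fun y => q (t, y)) ∘ fun r => ((b, η r) : B × P2)) = fun r => p'.2 + r := by
      funext r
      exact hηq r
    rw [e3] at e2
    have e4 : HasDerivAt (fun r : ℝ => p'.2 + r) 1 0 := by
      simpa using (hasDerivAt_id' (0 : ℝ)).const_add p'.2
    have e5 := e2.unique e4
    rw [hη0] at e5
    rw [e5]
    exact one_ne_zero
  · -- straight regions
    intro t b x y h
    rcases h with h | h | h
    · rw [← hqs (t, (b, (x, y))) 0 (by rw [hG0]; exact h), hG0]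
    · have h1 := hall t b x y (fun x' => by rw [hψR _ (hnorm b x' y (Or.inr (Or.inl h))), mul_zero])
        (-(x + R))
      rw [← hqs (t, (b, (x, y))) (-(x + R)) (by rw [h1]; simp only; linarith), h1]
    · have h1 := hall t b x y (fun x' => by rw [hψR _ (hnorm b x' y (Or.inr (Or.inr h))), mul_zero])
        (-(x + R))
      rw [← hqs (t, (b, (x, y))) (-(x + R)) (by rw [h1]; simp only; linarith), h1]
  · rintro ⟨b, x, y⟩
    have h1 := hall 0 b x y (fun x' => by rw [ac_zero (Or.inl le_rfl), zero_mul]) (-(x + R))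
    rw [← hqs (0, (b, (x, y))) (-(x + R)) (by rw [h1]; simp only; linarith), h1]
  · intro t b x y d hx hd
    rw [← hright t b x y d hd hx, hqinv]
  · intro g hg hgd hgl z
    have h1 : ∀ s, HasDerivAt (fun s => g (G s (1, z)).2) 0 s := by
      intro s
      have e1 := (hGd (1, z) s).snd
      have e2 := (hg (G s (1, z)).2).hasFDerivAt.comp_hasDerivAt s e1
      have e3 : (c + X (G s (1, z))).2 = (0, (Real.cos (ψ (G s (1, z)).2), Real.sin (ψ (G s (1, z)).2))) := by
        rw [hcX, (hpar _ _).1]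
        simp only [ac_one, one_mul, XF]
      rw [e3, hgd] at e2
      exact e2
    have h2 := is_const_of_deriv_eq_zero (fun s => (h1 s).differentiableAt)
      (fun s => (h1 s).deriv) (T (1, z)) 0
    simp only [hG0] at h2
    rw [← h2]
    have h3 := hT (1, z)
    obtain ⟨w', hw'⟩ : ∃ w', w' = G (T (1, z)) (1, z) := ⟨_, rfl⟩
    simp only [hq]
    rw [← hw'] at h3 ⊢
    obtain ⟨t', b', x', y'⟩ := w'
    exact (hgl b' x' y' h3.le).symm

end

end Pool.Agent.H83.BI
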