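import Pool.Agent.H83.BI.Mean

/-! Paths of one-forms of small torsion. -/

set_option autoImplicit false
set_option linter.unusedSectionVars false

open Set Filter Topology Metric Function MeasureTheory
open scoped ContDiff

namespace Pool.Agent.H83.BI

/-- the derivative of `smoothTransition` is bounded. -/
theorem st_deriv : ∃ D : ℝ, 0 ≤ D ∧ ∀ x, |deriv Real.smoothTransition x| ≤ D := by
  have hs : ContDiff ℝ ∞ Real.smoothTransition := Real.smoothTransition.contDiff
  have hc : Continuous (deriv Real.smoothTransition) := hs.continuous_deriv (by simp)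
  obtain ⟨C, hC⟩ := (isCompact_Icc (a := (0 : ℝ)) (b := 1)).exists_bound_of_continuousOn
    hc.continuousOn
  refine ⟨max C 0, le_max_right _ _, fun x => ?_⟩
  rcases lt_or_ge x 0 with hx | hx
  · have : Real.smoothTransition =ᶠ[𝓝 x] fun _ => (0 : ℝ) := by
      filter_upwards [Iio_mem_nhds hx] with z hz
      exact Real.smoothTransition.zero_of_nonpos (le_of_lt hz)
    rw [this.deriv_eq]
    simp
  · rcases lt_or_ge 1 x with hx1 | hx1
    · have : Real.smoothTransition =ᶠ[𝓝 x] fun _ => (1 : ℝ) := by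
        filter_upwards [Ioi_mem_nhds hx1] with z hz
        exact Real.smoothTransition.one_of_one_le (le_of_lt hz)
      rw [this.deriv_eq]
      simp
    · have := hC x ⟨hx, hx1⟩
      rw [Real.norm_eq_abs] at this
      exact this.trans (le_max_left _ _)

section

variable {E F : Type} [NormedAddCommGroup E] [NormedSpace ℝ E] [FiniteDimensional ℝ E]
  [NormedAddCommGroup F] [NormedSpace ℝ F] [FiniteDimensional ℝ F]

/-- maps near a map with a bounded right inverse are onto -/
theorem surj_near {A A' : E →L[ℝ] F} {C : F →L[ℝ] E} {K δ : ℝ} (hC : ‖C‖ ≤ K)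
    (hAC : A.comp C = ContinuousLinearMap.id ℝ F) (hδ : ∀ v, ‖A' v - A v‖ ≤ δ * ‖v‖)
    (hδ0 : 0 ≤ δ) (hK : K * δ < 1) : Surjective A' := by
  have hinj : Injective (A'.comp C : F →L[ℝ] F) := by
    rw [injective_iff_map_eq_zero]
    intro w hw
    have h1 : A (C w) = w := DFunLike.congr_fun hAC w
    have h2 := hδ (C w)
    have h3 : A' (C w) = 0 := hw
    rw [h1, h3, zero_sub, norm_neg] at h2
    have h4 : δ * ‖C w‖ ≤ δ * (K * ‖w‖) :=
      mul_le_mul_of_nonneg_left ((C.le_opNorm w).trans
        (mul_le_mul_of_nonneg_right hC (norm_nonneg _))) hδ0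
    by_contra hw0
    have h5 : 0 < ‖w‖ := norm_pos_iff.2 hw0
    nlinarith
  have hsurj := (LinearMap.injective_iff_surjective
    (f := ((A'.comp C : F →L[ℝ] F) : F →ₗ[ℝ] F))).1 hinj
  intro w
  obtain ⟨v, hv⟩ := hsurj w
  exact ⟨C v, hv⟩

theorem torsion (π : E →L[ℝ] F) (hπ : Module.finrank ℝ (LinearMap.ker (π : E →ₗ[ℝ] F)) ≤ 2)
    {f : E → E} (hf : IsDiffeo f) {R : ℝ} (hR : 0 < R) (hfR : ∀ x, R ≤ ‖x‖ → f x = x)
    {om : ℝ × E → (E →L[ℝ] F)} (hom : ContDiff ℝ ∞ om)
    (homR : ∀ t ∈ Icc (0 : ℝ) 1, ∀ x, R ≤ ‖x‖ → om (t, x) = π) (hom0 : ∀ x, om (0, x) = π)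
    (hom1 : ∀ x, om (1, x) = π.comp (fderiv ℝ f x))
    {e : E} (he : ‖e‖ = 1) {K τ : ℝ} (hτ : 0 ≤ τ) (hKτ : 2 * R * K * τ < 1)
    (hK : ∀ t ∈ Icc (0 : ℝ) 1, ∀ x, ∃ C : F →L[ℝ] E, ‖C‖ ≤ K ∧
      (om (t, x)).comp C = ContinuousLinearMap.id ℝ F)
    (htor : ∀ t ∈ Icc (0 : ℝ) 1, ∀ x v,
      ‖(fderiv ℝ (fun y => om (t, y)) x v) e - (fderiv ℝ (fun y => om (t, y)) x e) v‖ ≤ τ * ‖v‖) :
    Triv f := by
  have hnt : Nontrivial E := ⟨e, 0, by rintro rfl; simp at he⟩
  have hK0 : 0 ≤ K := by
    obtain ⟨C, hC, -⟩ := hK 0 ⟨le_rfl, zero_le_one⟩ 0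
    exact (norm_nonneg _).trans hC
  obtain ⟨ℓ, hℓ1, hℓe⟩ := exists_dual_vector'' ℝ e
  have hℓe' : ℓ e = 1 := by
    rw [hℓe, he]; simp
  have hℓ : ∀ x, |ℓ x| ≤ ‖x‖ := by
    intro x
    have h1 := ℓ.le_opNorm x
    rw [Real.norm_eq_abs] at h1
    exact h1.trans (mul_le_of_le_one_left (norm_nonneg _) hℓ1)
  obtain ⟨D, hD0, hD⟩ := st_deriv
  -- bound of the forms
  obtain ⟨S, hS0, hS⟩ : ∃ S : ℝ, 0 ≤ S ∧ ∀ t ∈ Icc (0 : ℝ) 1, ∀ x, ‖om (t, x) e - π e‖ ≤ S := by
    have hc : Continuous (fun p : ℝ × E => om p e - π e) :=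
      (hom.continuous.clm_apply continuous_const).sub continuous_const
    obtain ⟨C, hC⟩ := ((isCompact_Icc (a := (0 : ℝ)) (b := 1)).prod
      (isCompact_closedBall (0 : E) R)).exists_bound_of_continuousOn hc.continuousOn
    refine ⟨max C 0, le_max_right _ _, fun t ht x => ?_⟩
    by_cases hx : R ≤ ‖x‖
    · rw [homR t ht x hx, sub_self, norm_zero]; exact le_max_right _ _
    · exact (hC (t, x) ⟨ht, mem_closedBall_zero_iff.2 (not_le.1 hx).le⟩).trans (le_max_left _ _)
  -- the length of the transition region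
  obtain ⟨L, hL0, hL⟩ : ∃ L : ℝ, 0 < L ∧ K * (D / L * (2 * R * S) + 2 * R * τ) < 1 := by
    have h1 : Tendsto (fun L : ℝ => K * (D / L * (2 * R * S) + 2 * R * τ)) atTop
        (𝓝 (K * (0 * (2 * R * S) + 2 * R * τ))) :=
      (((tendsto_const_nhds.div_atTop tendsto_id).mul_const _).add_const _).const_mul K
    have h2 : K * (0 * (2 * R * S) + 2 * R * τ) < 1 := by
      rw [zero_mul, zero_add]; linarith
    obtain ⟨L, hL1, hL2⟩ := ((h1.eventually (gt_mem_nhds h2)).and (eventually_gt_atTop 0)).exists
    exact ⟨L, hL2, hL1⟩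
  set M : ℝ := 2 * R + L with hM
  have hM0 : 0 < M := by positivity
  set χ : ℝ → ℝ := fun s => 1 - Real.smoothTransition ((s - R) / L) with hχ
  have hχs : ContDiff ℝ ∞ χ := contDiff_const.sub
    (Real.smoothTransition.contDiff.comp ((contDiff_id.sub contDiff_const).div_const L))
  have hχ1 : ∀ s, s ≤ R → χ s = 1 := by
    intro s hs
    simp only [hχ]
    rw [Real.smoothTransition.zero_of_nonpos (div_nonpos_of_nonpos_of_nonneg (by linarith) hL0.le),
      sub_zero]
  have hχ0 : ∀ s, R + L ≤ s → χ s = 0 := by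
    intro s hs
    simp only [hχ]
    rw [Real.smoothTransition.one_of_one_le (by rw [le_div_iff₀ hL0]; linarith), sub_self]
  have hχn : ∀ s, |χ s| ≤ 1 := by
    intro s
    have h1 := Real.smoothTransition.nonneg ((s - R) / L)
    have h2 := Real.smoothTransition.le_one ((s - R) / L)
    rw [abs_le]
    constructor <;> simp only [hχ] <;> linarith
  have hχd : ∀ s, ∃ d : ℝ, |d| ≤ D / L ∧ HasDerivAt χ d s := by
    intro s
    have h2 : HasDerivAt (fun x : ℝ => (x - R) / L) (1 / L) s :=
      ((hasDerivAt_id' s).sub_const R).div_const L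
    have h3 : HasDerivAt Real.smoothTransition
        (deriv Real.smoothTransition ((s - R) / L)) ((s - R) / L) :=
      (((Real.smoothTransition.contDiff : ContDiff ℝ ∞ Real.smoothTransition)).differentiable
        (by simp)).differentiableAt.hasDerivAt
    have h3' := h3.comp s h2
    have h4 : HasDerivAt χ (-(deriv Real.smoothTransition ((s - R) / L) * (1 / L))) s :=
      h3'.const_sub 1
    refine ⟨_, ?_, h4⟩
    rw [abs_neg, abs_mul, abs_of_pos (by positivity : 0 < 1 / L), mul_one_div]
    exact div_le_div_of_nonneg_right (hD _) hL0.le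
  -- the integral
  set μ : Measure ℝ := volume.restrict (Icc (-M) 0) with hμ
  have hfin : IsFiniteMeasure μ := ⟨by
    rw [hμ, Measure.restrict_apply_univ, Real.volume_Icc]; exact ENNReal.ofReal_lt_top⟩
  have hμK : μ (Icc (-M) 0)ᶜ = 0 := by
    rw [hμ, Measure.restrict_apply measurableSet_Icc.compl, compl_inter_self, measure_empty]
  set J : ℝ × E → F := fun p => ∫ s, (om (p.1, p.2 + s • e) e - π e) ∂μ with hJ
  have hJs : ContDiff ℝ ∞ J := by
    refine contDiff_param_measure μ isCompact_Icc hμK
      (F := fun (p : ℝ × E) (s : ℝ) => om (p.1, p.2 + s • e) e - π e) ?_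
    refine ContDiff.sub (ContDiff.clm_apply (hom.comp ?_) contDiff_const) contDiff_const
    exact (contDiff_fst.comp contDiff_fst).prodMk ((contDiff_snd.comp contDiff_fst).add
      (contDiff_snd.smul contDiff_const))
  have homt : ∀ t, ContDiff ℝ ∞ (fun y => om (t, y)) := fun t => slice hom t
  have homd : ∀ t x, HasFDerivAt (fun y => om (t, y)) (fderiv ℝ (fun y => om (t, y)) x) x :=
    fun t x => ((homt t).differentiable (by simp) x).hasFDerivAt
  have homfc : ∀ t, Continuous (fderiv ℝ (fun y => om (t, y))) := fun t =>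
    (homt t).continuous_fderiv (by simp)
  set G : ℝ → E → (E →L[ℝ] F) := fun t x =>
    ∫ s, (fderiv ℝ (fun y => om (t, y)) (x + s • e)).flip e ∂μ with hG
  have hJd : ∀ t x, HasFDerivAt (fun y => J (t, y)) (G t x) x := by
    intro t x
    refine hasFDerivAt_param_measure μ isCompact_Icc hμK
      (F := fun y (s : ℝ) => om (t, y + s • e) e - π e)
      (D := fun y (s : ℝ) => (fderiv ℝ (fun y => om (t, y)) (y + s • e)).flip e) ?_ ?_ ?_ x
    · exact (((homt t).continuous.comp (by fun_prop)).clm_apply continuous_const).sub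
        continuous_const
    · have h1 : Continuous (fun p : E × ℝ => fderiv ℝ (fun y => om (t, y)) (p.1 + p.2 • e)) :=
        (homfc t).comp (by fun_prop)
      exact ((ContinuousLinearMap.flipₗᵢ ℝ E E F).continuous.comp h1).clm_apply continuous_const
    · intro x s
      have h1 : HasFDerivAt (fun y : E => y + s • e) (ContinuousLinearMap.id ℝ E) x :=
        (hasFDerivAt_id x).add_const _
      have h2 := (homd t (x + s • e)).comp x h1
      rw [ContinuousLinearMap.comp_id] at h2
      have h3 : HasFDerivAt (fun y => om (t, y + s • e))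
          (fderiv ℝ (fun y => om (t, y)) (x + s • e)) x := h2
      have h4 := h3.clm_apply (hasFDerivAt_const e x)
      have h5 := h4.sub_const (π e)
      simp only [ContinuousLinearMap.comp_zero, zero_add] at h5
      exact h5
  -- the derivative of `J`
  have hGeq : ∀ t ∈ Icc (0 : ℝ) 1, ∀ x, ℓ x ≤ R + L → ∀ v,
      ‖G t x v - (om (t, x) v - π v)‖ ≤ 2 * R * τ * ‖v‖ := by
    intro t ht x hx v
    have hc1 : Continuous (fun s : ℝ => fderiv ℝ (fun y => om (t, y)) (x + s • e)) :=
      (homfc t).comp (by fun_prop)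
    have hc2 : Continuous (fun s : ℝ => (fderiv ℝ (fun y => om (t, y)) (x + s • e)).flip e) :=
      ((ContinuousLinearMap.flipₗᵢ ℝ E E F).continuous.comp hc1).clm_apply continuous_const
    have h1 : G t x v = ∫ s, (fderiv ℝ (fun y => om (t, y)) (x + s • e) v) e ∂μ :=
      ContinuousLinearMap.integral_apply (integrable_cont μ isCompact_Icc hμK hc2) v
    have hc3 : Continuous (fun s : ℝ => (fderiv ℝ (fun y => om (t, y)) (x + s • e) e) v) :=
      (hc1.clm_apply continuous_const).clm_apply continuous_const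
    have hc4 : Continuous (fun s : ℝ => (fderiv ℝ (fun y => om (t, y)) (x + s • e) v) e -
        (fderiv ℝ (fun y => om (t, y)) (x + s • e) e) v) :=
      ((hc1.clm_apply continuous_const).clm_apply continuous_const).sub hc3
    have h2 : ∫ s, (fderiv ℝ (fun y => om (t, y)) (x + s • e) e) v ∂μ = om (t, x) v - π v := by
      rw [hμ, integral_Icc_eq_integral_Ioc, ← intervalIntegral.integral_of_le (by linarith)]
      have h3 : ∀ s : ℝ, HasDerivAt (fun s : ℝ => om (t, x + s • e) v)
          ((fderiv ℝ (fun y => om (t, y)) (x + s • e) e) v) s := by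
        intro s
        have h4 : HasDerivAt (fun s : ℝ => x + s • e) e s := by
          simpa using ((hasDerivAt_id' s).smul_const e).const_add x
        have h5 := (homd t (x + s • e)).comp_hasDerivAt s h4
        have h6 : HasDerivAt (fun s : ℝ => om (t, x + s • e))
            (fderiv ℝ (fun y => om (t, y)) (x + s • e) e) s := h5
        have h7 := h6.clm_apply (hasDerivAt_const s v)
        simpa using h7
      rw [intervalIntegral.integral_eq_sub_of_hasDerivAt (fun s _ => h3 s)
        (hc3.intervalIntegrable _ _)]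
      have h4 : R ≤ ‖x + (-M) • e‖ := by
        have h5 := hℓ (x + (-M) • e)
        rw [map_add, map_smul, hℓe', smul_eq_mul, mul_one, abs_of_nonpos (by linarith)] at h5
        linarith
      rw [homR t ht _ h4, zero_smul, add_zero]
    have h3 : G t x v - (om (t, x) v - π v) = ∫ s, ((fderiv ℝ (fun y => om (t, y)) (x + s • e) v) e -
        (fderiv ℝ (fun y => om (t, y)) (x + s • e) e) v) ∂μ := by
      rw [h1, ← h2, ← integral_sub]
      · exact integrable_cont μ isCompact_Icc hμK
          ((hc1.clm_apply continuous_const).clm_apply continuous_const)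
      · exact integrable_cont μ isCompact_Icc hμK hc3
    rw [h3]
    set g : ℝ → F := fun s => (fderiv ℝ (fun y => om (t, y)) (x + s • e) v) e -
        (fderiv ℝ (fun y => om (t, y)) (x + s • e) e) v with hg
    set T : Set ℝ := {s | ‖x + s • e‖ ≤ R} with hT
    have hTc : IsClosed T := isClosed_le (by fun_prop) continuous_const
    have hTv : volume T ≤ ENNReal.ofReal (2 * R) := by
      refine (Real.volume_le_diam T).trans (Metric.ediam_le fun s hs s' hs' => ?_)
      rw [edist_dist]
      refine ENNReal.ofReal_le_ofReal ?_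
      have h4 : ‖(s - s') • e‖ = |s - s'| := by rw [norm_smul, he, mul_one, Real.norm_eq_abs]
      rw [Real.dist_eq, ← h4]
      have h5 : (s - s') • e = (x + s • e) - (x + s' • e) := by module
      rw [h5]
      refine (norm_sub_le _ _).trans ?_
      have h6 : ‖x + s • e‖ ≤ R := hs
      have h7 : ‖x + s' • e‖ ≤ R := hs'
      linarith
    have hg0 : ∀ s, s ∉ T → g s = 0 := by
      intro s hs
      have h4 : R < ‖x + s • e‖ := not_le.1 hs
      have h5 : (fun y => om (t, y)) =ᶠ[𝓝 (x + s • e)] fun _ => π := by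
        filter_upwards [(isOpen_lt continuous_const continuous_norm).mem_nhds h4] with y hy
        exact homR t ht y (le_of_lt hy)
      simp only [hg]
      rw [h5.fderiv_eq]
      simp
    have h4 : ∫ s, g s ∂μ = ∫ s in Icc (-M) 0 ∩ T, g s := by
      rw [hμ]
      refine setIntegral_eq_of_subset_of_forall_sdiff_eq_zero measurableSet_Icc inter_subset_left ?_
      rintro s ⟨hs1, hs2⟩
      exact hg0 s fun h => hs2 ⟨hs1, h⟩
    rw [h4]
    have h5 : volume (Icc (-M) 0 ∩ T) ≤ ENNReal.ofReal (2 * R) :=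
      (measure_mono inter_subset_right).trans hTv
    have h6 : ‖∫ s in Icc (-M) 0 ∩ T, g s‖ ≤ τ * ‖v‖ * volume.real (Icc (-M) 0 ∩ T) :=
      norm_setIntegral_le_of_norm_le_const (lt_of_le_of_lt h5 ENNReal.ofReal_lt_top)
        (fun s _ => htor t ht _ v)
    have h7 : volume.real (Icc (-M) 0 ∩ T) ≤ 2 * R :=
      ENNReal.toReal_le_of_le_ofReal (by positivity) h5
    calc _ ≤ _ := h6
      _ ≤ τ * ‖v‖ * (2 * R) := mul_le_mul_of_nonneg_left h7 (by positivity)
      _ = 2 * R * τ * ‖v‖ := by ring
  have hJn : ∀ t ∈ Icc (0 : ℝ) 1, ∀ x, ‖J (t, x)‖ ≤ 2 * R * S := by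
    intro t ht x
    set g : ℝ → F := fun s => om (t, x + s • e) e - π e with hg
    set T : Set ℝ := {s | ‖x + s • e‖ ≤ R} with hT
    have hTc : IsClosed T := isClosed_le (by fun_prop) continuous_const
    have hTv : volume T ≤ ENNReal.ofReal (2 * R) := by
      refine (Real.volume_le_diam T).trans (Metric.ediam_le fun s hs s' hs' => ?_)
      rw [edist_dist]
      refine ENNReal.ofReal_le_ofReal ?_
      have h4 : ‖(s - s') • e‖ = |s - s'| := by rw [norm_smul, he, mul_one, Real.norm_eq_abs]
      rw [Real.dist_eq, ← h4]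
      have h5 : (s - s') • e = (x + s • e) - (x + s' • e) := by module
      rw [h5]
      refine (norm_sub_le _ _).trans ?_
      have h6 : ‖x + s • e‖ ≤ R := hs
      have h7 : ‖x + s' • e‖ ≤ R := hs'
      linarith
    have hg0 : ∀ s, s ∉ T → g s = 0 := by
      intro s hs
      have h4 : R < ‖x + s • e‖ := not_le.1 hs
      simp only [hg]
      rw [homR t ht _ h4.le, sub_self]
    have h4 : J (t, x) = ∫ s in Icc (-M) 0 ∩ T, g s := by
      simp only [hJ]
      rw [hμ]
      refine setIntegral_eq_of_subset_of_forall_sdiff_eq_zero measurableSet_Icc inter_subset_left ?_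
      rintro s ⟨hs1, hs2⟩
      exact hg0 s fun h => hs2 ⟨hs1, h⟩
    rw [h4]
    have h5 : volume (Icc (-M) 0 ∩ T) ≤ ENNReal.ofReal (2 * R) :=
      (measure_mono inter_subset_right).trans hTv
    have h6 : ‖∫ s in Icc (-M) 0 ∩ T, g s‖ ≤ S * volume.real (Icc (-M) 0 ∩ T) :=
      norm_setIntegral_le_of_norm_le_const (lt_of_le_of_lt h5 ENNReal.ofReal_lt_top)
        (fun s _ => hS t ht _)
    have h7 : volume.real (Icc (-M) 0 ∩ T) ≤ 2 * R :=
      ENNReal.toReal_le_of_le_ofReal (by positivity) h5
    calc _ ≤ _ := h6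
      _ ≤ S * (2 * R) := mul_le_mul_of_nonneg_left h7 hS0
      _ = 2 * R * S := by ring
  refine main π hπ hf (Q := fun p => π p.2 + χ (ℓ p.2) • J p) (R := R + M) ?_ ?_ ?_ ?_ ?_
    ⟨R, hfR⟩
  · exact (π.contDiff.comp contDiff_snd).add
      ((hχs.comp (ℓ.contDiff.comp contDiff_snd)).smul hJs)
  · intro t ht x
    obtain ⟨d, hd, hχx⟩ := hχd (ℓ x)
    have e1 : HasFDerivAt (fun y => χ (ℓ y)) (d • ℓ) x := by
      have := hχx.comp_hasFDerivAt x ℓ.hasFDerivAt
      exact this
    have e2 : HasFDerivAt (fun y => π y + χ (ℓ y) • J (t, y))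
        (π + (χ (ℓ x) • G t x + (d • ℓ).smulRight (J (t, x)))) x :=
      π.hasFDerivAt.add (e1.smul (hJd t x))
    show Surjective (fderiv ℝ (fun y => π y + χ (ℓ y) • J (t, y)) x)
    obtain ⟨C, hC, hAC⟩ := hK t ht x
    rcases lt_or_ge (ℓ x) R with h | h
    · -- left of the transition region
      have e3 : HasFDerivAt (fun y => π y + χ (ℓ y) • J (t, y)) (π + G t x) x := by
        have h1 : (fun y => π y + χ (ℓ y) • J (t, y)) =ᶠ[𝓝 x] fun y => π y + J (t, y) := by
          filter_upwards [ℓ.continuous.continuousAt.eventually_lt continuousAt_const h] with y hy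
          rw [hχ1 _ hy.le, one_smul]
        exact (π.hasFDerivAt.add (hJd t x)).congr_of_eventuallyEq h1
      rw [e3.fderiv]
      refine surj_near hC hAC (δ := 2 * R * τ) (fun v => ?_) (by positivity) (by linarith)
      have h1 := hGeq t ht x (by linarith) v
      have h2 : (π + G t x) v - om (t, x) v = G t x v - (om (t, x) v - π v) := by
        show π v + G t x v - om (t, x) v = _
        abel
      rw [h2]
      exact h1
    · have hxR : R ≤ ‖x‖ := h.trans ((le_abs_self _).trans (hℓ x))
      have homx := homR t ht x hxR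
      rw [homx] at hAC
      rcases le_or_gt (ℓ x) (R + L) with h' | h'
      · rw [e2.fderiv]
        refine surj_near hC hAC (δ := D / L * (2 * R * S) + 2 * R * τ) (fun v => ?_)
          (by positivity) hL
        have h1 := hGeq t ht x h' v
        rw [homx, sub_self, sub_zero] at h1
        have h2 : (π + (χ (ℓ x) • G t x + (d • ℓ).smulRight (J (t, x)))) v - π v =
            χ (ℓ x) • G t x v + (d * ℓ v) • J (t, x) := by
          show π v + (χ (ℓ x) • G t x v + (d • ℓ v) • J (t, x)) - π v = _
          rw [smul_eq_mul]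
          abel
        rw [h2]
        have h3 : ‖χ (ℓ x) • G t x v‖ ≤ 2 * R * τ * ‖v‖ := by
          rw [norm_smul, Real.norm_eq_abs]
          exact (mul_le_of_le_one_left (norm_nonneg _) (hχn _)).trans h1
        have h4 : ‖(d * ℓ v) • J (t, x)‖ ≤ D / L * (2 * R * S) * ‖v‖ := by
          rw [norm_smul, Real.norm_eq_abs, abs_mul]
          calc |d| * |ℓ v| * ‖J (t, x)‖ ≤ (D / L * ‖v‖) * (2 * R * S) := by
                refine mul_le_mul (mul_le_mul hd (hℓ v) (abs_nonneg _) (by positivity))
                  (hJn t ht x) (norm_nonneg _) (by positivity)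
            _ = D / L * (2 * R * S) * ‖v‖ := by ring
        calc _ ≤ _ := norm_add_le _ _
          _ ≤ 2 * R * τ * ‖v‖ + D / L * (2 * R * S) * ‖v‖ := add_le_add h3 h4
          _ = _ := by ring
      · have e3 : HasFDerivAt (fun y => π y + χ (ℓ y) • J (t, y)) π x := by
          have h1 : (fun y => π y + χ (ℓ y) • J (t, y)) =ᶠ[𝓝 x] fun y => π y := by
            filter_upwards [ℓ.continuous.continuousAt.eventually (lt_mem_nhds h')] with y hy
            rw [hχ0 _ hy.le, zero_smul, add_zero]
          exact π.hasFDerivAt.congr_of_eventuallyEq h1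
        rw [e3.fderiv]
        refine surj_near hC hAC (δ := 0) (fun v => ?_) le_rfl (by rw [mul_zero]; exact one_pos)
        rw [sub_self, norm_zero, zero_mul]
  · intro t ht x hx
    show π x + χ (ℓ x) • J (t, x) = π x
    have h1 : J (t, x) = 0 := by
      simp only [hJ, hμ]
      rw [setIntegral_congr_fun (g := fun _ => (0 : F)) measurableSet_Icc]
      · simp
      · intro s hs
        show om (t, x + s • e) e - π e = 0
        have h2 : ‖s • e‖ ≤ M := by
          rw [norm_smul, he, mul_one, Real.norm_eq_abs, abs_of_nonpos hs.2]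
          linarith [hs.1]
        have h3 : ‖x‖ ≤ ‖x + s • e‖ + ‖s • e‖ := by
          have := norm_sub_le (x + s • e) (s • e)
          rwa [add_sub_cancel_right] at this
        rw [homR t ht _ (by linarith), sub_self]
    rw [h1, smul_zero, add_zero]
  · intro x
    show π x + χ (ℓ x) • J (0, x) = π x
    have h1 : J (0, x) = 0 := by
      simp only [hJ, hom0, sub_self, integral_zero]
    rw [h1, smul_zero, add_zero]
  · intro x
    show π x + χ (ℓ x) • J (1, x) = π (f x)
    have key : ℓ x ≤ R + L → J (1, x) = π (f x) - π x := by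
      intro hx
      simp only [hJ, hom1, hμ]
      rw [integral_Icc_eq_integral_Ioc, ← intervalIntegral.integral_of_le (by linarith)]
      have h3 : ∀ s : ℝ, HasDerivAt (fun s : ℝ => π (f (x + s • e)) - π (x + s • e))
          ((π.comp (fderiv ℝ f (x + s • e))) e - π e) s := by
        intro s
        have h4 : HasDerivAt (fun s : ℝ => x + s • e) e s := by
          simpa using ((hasDerivAt_id' s).smul_const e).const_add x
        have h5 := ((hf.1.differentiable (by simp) (x + s • e)).hasFDerivAt).comp_hasDerivAt s h4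
        exact (π.hasFDerivAt.comp_hasDerivAt s h5).sub (π.hasFDerivAt.comp_hasDerivAt s h4)
      have hc : Continuous (fun s : ℝ => (π.comp (fderiv ℝ f (x + s • e))) e - π e) := by
        have h4 : Continuous (fun s : ℝ => fderiv ℝ f (x + s • e)) :=
          (hf.1.continuous_fderiv (by simp)).comp (by fun_prop)
        exact (π.continuous.comp (h4.clm_apply continuous_const)).sub continuous_const
      rw [intervalIntegral.integral_eq_sub_of_hasDerivAt (fun s _ => h3 s)
        (hc.intervalIntegrable _ _)]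
      have h4 : R ≤ ‖x + (-M) • e‖ := by
        have h5 := hℓ (x + (-M) • e)
        rw [map_add, map_smul, hℓe', smul_eq_mul, mul_one, abs_of_nonpos (by linarith)] at h5
        linarith
      rw [hfR _ h4, zero_smul, add_zero, sub_self, sub_zero]
    rcases le_or_gt (ℓ x) R with h | h
    · rw [hχ1 _ h, one_smul, key (by linarith)]
      abel
    · have hxR : R ≤ ‖x‖ := h.le.trans ((le_abs_self _).trans (hℓ x))
      rcases le_or_gt (ℓ x) (R + L) with h' | h'
      · rw [key h', hfR x hxR, sub_self, smul_zero, add_zero]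
      · rw [hχ0 _ h'.le, zero_smul, add_zero, hfR x hxR]

end

end Pool.Agent.H83.BI
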